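import Mathlib

open Finset

namespace Pool.Agent.X175.CSH

variable {ι : Type*} [LinearOrder ι] {W : Type*} [AddCommGroup W]

/-- sign `(-1)^{#{f in F : f < e}}` -/
def sgn (e : ι) (F : Finset ι) : ℤ := (-1) ^ (F.filter (· < e)).card

lemma sgn_sq (e : ι) (F : Finset ι) : sgn e F * sgn e F = 1 := by
  unfold sgn
  rw [← pow_add, ← two_mul, pow_mul]
  simp

lemma sgn_erase (e : ι) (F : Finset ι) : sgn e (F.erase e) = sgn e F := by
  unfold sgn
  congr 2
  ext x
  simp only [mem_filter, mem_erase]
  constructor
  · rintro ⟨⟨-, h⟩, h2⟩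
    exact ⟨h, h2⟩
  · rintro ⟨h, h2⟩
    exact ⟨⟨h2.ne, h⟩, h2⟩

lemma sgn_insert_self (e : ι) (F : Finset ι) : sgn e (insert e F) = sgn e F := by
  unfold sgn
  congr 2
  ext x
  simp only [mem_filter, mem_insert]
  constructor
  · rintro ⟨h | h, h2⟩
    · exact absurd h h2.ne
    · exact ⟨h, h2⟩
  · rintro ⟨h, h2⟩
    exact ⟨Or.inr h, h2⟩

lemma sgn_insert {e f : ι} {F : Finset ι} (hf : f ∉ F) (_hef : e ≠ f) :
    sgn e (insert f F) = (if f < e then -1 else 1) * sgn e F := by
  unfold sgn
  rw [filter_insert]
  split_ifs with h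
  · rw [card_insert_of_notMem (by simp [hf]), pow_succ]
    ring
  · ring

lemma sgn_anti {e f : ι} {F : Finset ι} (he : e ∉ F) (hf : f ∉ F) (hef : e ≠ f) :
    sgn f (insert e F) * sgn e (insert f F) = - (sgn e F * sgn f F) := by
  rw [sgn_insert he hef.symm, sgn_insert hf hef]
  rcases lt_or_gt_of_ne hef with h | h
  · rw [if_pos h, if_neg (not_lt.2 h.le)]
    ring
  · rw [if_neg (not_lt.2 h.le), if_pos h]
    ring

/-- the differential on families indexed by the subsets of `Q` -/
def dd (Q : Finset ι) (c : Finset ι → W) (F : Finset ι) : W :=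
  ∑ e ∈ Q \ F, sgn e F • c (insert e F)

/-- a family glued from its two parts with respect to the element `e` -/
def glue (e : ι) (y0 y1 : Finset ι → W) (F : Finset ι) : W :=
  if e ∈ F then sgn e F • y1 (F.erase e) else y0 F

lemma dd_glue {e : ι} {Q : Finset ι} (he : e ∉ Q) (y0 y1 : Finset ι → W) :
    dd (insert e Q) (glue e y0 y1)
      = glue e (fun F => dd Q y0 F + y1 F) (fun F => - dd Q y1 F) := by
  funext F
  by_cases heF : e ∈ F
  · unfold glue dd
    rw [if_pos heF]
    have hset : (insert e Q) \ F = Q \ F.erase e := by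
      ext x
      simp only [mem_sdiff, mem_insert, mem_erase]
      constructor
      · rintro ⟨h1 | h1, h2⟩
        · exact absurd (h1 ▸ heF) h2
        · exact ⟨h1, fun h => h2 h.2⟩
      · rintro ⟨h1, h2⟩
        refine ⟨Or.inr h1, fun h => h2 ⟨?_, h⟩⟩
        rintro rfl
        exact he h1
    rw [hset, smul_neg, smul_sum, ← sum_neg_distrib]
    refine sum_congr rfl ?_
    intro f hf
    rw [mem_sdiff] at hf
    have hfe : f ≠ e := by
      rintro rfl
      exact he hf.1
    have hfF : f ∉ F := fun h => hf.2 (mem_erase.2 ⟨hfe, h⟩)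
    dsimp only
    rw [if_pos (mem_insert_of_mem heF)]
    have h1 : (insert f F).erase e = insert f (F.erase e) := by
      rw [erase_insert_of_ne hfe]
    rw [h1, smul_smul, smul_smul, ← neg_smul]
    congr 1
    have h2 : F = insert e (F.erase e) := (insert_erase heF).symm
    have h3 := sgn_anti (e := e) (f := f) (F := F.erase e) (notMem_erase e F) hf.2 hfe.symm
    rw [← h2] at h3
    have h4 : sgn e (insert f F) = sgn e (insert f (F.erase e)) := by
      rw [← sgn_erase e (insert f F), h1]
    rw [h4, h3, sgn_erase]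
  · unfold glue dd
    rw [if_neg heF]
    have hset : (insert e Q) \ F = insert e (Q \ F) := by
      rw [insert_sdiff_of_notMem _ heF]
    rw [hset, sum_insert (by simp [he])]
    dsimp only
    rw [if_pos (mem_insert_self e F), erase_insert heF, sgn_insert_self, smul_smul, sgn_sq,
      one_smul, add_comm]
    congr 1
    refine sum_congr rfl ?_
    intro f hf
    rw [mem_sdiff] at hf
    have hfe : f ≠ e := by
      rintro rfl
      exact he hf.1
    rw [if_neg]
    simp [hfe.symm, heF]

/-- the part without `e` -/
def part0 (e : ι) (c : Finset ι → W) (F : Finset ι) : W := if e ∈ F then 0 else c F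
/-- the part with `e` -/
def part1 (e : ι) (c : Finset ι → W) (F : Finset ι) : W :=
  if e ∈ F then 0 else sgn e F • c (insert e F)

lemma glue_parts (e : ι) (c : Finset ι → W) : glue e (part0 e c) (part1 e c) = c := by
  funext F
  unfold glue part0 part1
  by_cases heF : e ∈ F
  · rw [if_pos heF, if_neg (notMem_erase e F), insert_erase heF, smul_smul, sgn_erase, sgn_sq,
      one_smul]
  · rw [if_neg heF, if_neg heF]

/-- chains of degree `k` of the intersection complex with edges in `Q` over `P` -/
def IsChain (U : Finset ι → AddSubgroup W) (Q P : Finset ι) (k : ℕ) (c : Finset ι → W) : Prop :=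
  (∀ F, c F ∈ U (P ∪ F)) ∧ ∀ F, c F ≠ 0 → F ⊆ Q ∧ F.card = k

/-- vanishing of the homology in degree `k` -/
def Vanish (U : Finset ι → AddSubgroup W) (Q P : Finset ι) (k : ℕ) : Prop :=
  ∀ c, IsChain U Q P k c → dd Q c = 0 → ∃ y, IsChain U Q P (k + 1) y ∧ dd Q y = c

/-- `e` is a loop over `P` -/
def Loop (U : Finset ι → AddSubgroup W) (P : Finset ι) (e : ι) : Prop :=
  ∀ F, U (P ∪ F) ≤ U (insert e P ∪ F)

variable {U : Finset ι → AddSubgroup W} {Q P : Finset ι}

lemma part0_chain {e : ι} {k : ℕ} {c : Finset ι → W} (hc : IsChain U (insert e Q) P k c) :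
    IsChain U Q P k (part0 e c) := by
  constructor
  · intro F
    unfold part0
    split_ifs
    · exact (U _).zero_mem
    · exact hc.1 F
  · intro F hF
    unfold part0 at hF
    split_ifs at hF with h
    · exact absurd rfl hF
    · obtain ⟨h1, h2⟩ := hc.2 F hF
      exact ⟨(subset_insert_iff_of_notMem h).1 h1, h2⟩

lemma part1_chain {e : ι} {k : ℕ} {c : Finset ι → W} (hc : IsChain U (insert e Q) P (k + 1) c) :
    IsChain U Q (insert e P) k (part1 e c) := by
  constructor
  · intro F
    unfold part1
    split_ifs
    · exact (U _).zero_mem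
    · refine (U _).zsmul_mem ?_ _
      have := hc.1 (insert e F)
      rwa [union_insert, ← insert_union] at this
  · intro F hF
    unfold part1 at hF
    split_ifs at hF with h
    · exact absurd rfl hF
    · have h3 : c (insert e F) ≠ 0 := by
        intro h4
        rw [h4, smul_zero] at hF
        exact hF rfl
      obtain ⟨h1, h2⟩ := hc.2 _ h3
      rw [card_insert_of_notMem h] at h2
      exact ⟨(insert_subset_insert_iff h).1 h1, by omega⟩

lemma part1_zero {e : ι} {c : Finset ι → W} (hc : IsChain U (insert e Q) P 0 c) :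
    part1 e c = 0 := by
  funext F
  unfold part1
  split_ifs with h
  · rfl
  · by_contra hne
    have h3 : c (insert e F) ≠ 0 := by
      intro h4
      rw [h4, smul_zero] at hne
      exact hne rfl
    have h2 := (hc.2 _ h3).2
    rw [card_insert_of_notMem h] at h2
    omega

lemma glue_chain {e : ι} {k : ℕ} {y0 y1 : Finset ι → W}
    (h0 : IsChain U Q P (k + 1) y0) (h1 : IsChain U Q (insert e P) k y1) :
    IsChain U (insert e Q) P (k + 1) (glue e y0 y1) := by
  constructor
  · intro F
    unfold glue
    split_ifs with h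
    · refine (U _).zsmul_mem ?_ _
      have := h1.1 (F.erase e)
      rwa [insert_union, ← union_insert, insert_erase h] at this
    · exact h0.1 F
  · intro F hF
    unfold glue at hF
    split_ifs at hF with h
    · have h3 : y1 (F.erase e) ≠ 0 := by
        intro h4
        rw [h4, smul_zero] at hF
        exact hF rfl
      obtain ⟨h4, h5⟩ := h1.2 _ h3
      rw [card_erase_of_mem h] at h5
      have h6 : 0 < F.card := card_pos.2 ⟨e, h⟩
      exact ⟨subset_insert_iff.2 h4, by omega⟩
    · obtain ⟨h4, h5⟩ := h0.2 _ hF
      exact ⟨h4.trans (subset_insert _ _), h5⟩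

lemma zero_chain {k : ℕ} : IsChain U Q P k (0 : Finset ι → W) :=
  ⟨fun _ => (U _).zero_mem, fun _ h => absurd rfl h⟩

lemma dd_zero : dd Q (0 : Finset ι → W) = 0 := by
  funext F
  unfold dd
  simp

lemma dd_add (x y : Finset ι → W) : dd Q (x + y) = dd Q x + dd Q y := by
  funext F
  unfold dd
  simp only [Pi.add_apply, smul_add, sum_add_distrib]

lemma dd_neg (x : Finset ι → W) : dd Q (-x) = - dd Q x := by
  funext F
  unfold dd
  simp only [Pi.neg_apply, smul_neg, sum_neg_distrib]

/-- for a cycle `c`, the relations between its parts -/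
lemma cycle_parts {e : ι} {k : ℕ} {c : Finset ι → W} (he : e ∉ Q)
    (hc : IsChain U (insert e Q) P k c) (hd : dd (insert e Q) c = 0) :
    dd Q (part0 e c) + part1 e c = 0 ∧ dd Q (part1 e c) = 0 := by
  have h := dd_glue he (part0 e c) (part1 e c)
  rw [glue_parts, hd] at h
  constructor
  · funext F
    by_cases heF : e ∈ F
    · have h1 : part1 e c F = 0 := by simp [part1, heF]
      have h2 : dd Q (part0 e c) F = 0 := by
        unfold dd
        refine sum_eq_zero fun f _ => ?_
        have : part0 e c (insert f F) = 0 := by simp [part0, heF]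
        rw [this, smul_zero]
      simp [h1, h2]
    · have := congrFun h F
      simp only [glue, if_neg heF] at this
      exact this.symm
  · funext F
    by_cases heF : e ∈ F
    · unfold dd
      refine sum_eq_zero fun f _ => ?_
      have : part1 e c (insert f F) = 0 := by simp [part1, heF]
      rw [this, smul_zero]
    · have := congrFun h (insert e F)
      simp only [glue, if_pos (mem_insert_self e F), erase_insert heF, Pi.zero_apply] at this
      have h3 := congrArg (fun v => sgn e (insert e F) • v) this
      simp only [smul_zero, smul_smul, sgn_sq, one_smul] at h3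
      have h4 := congrArg Neg.neg h3
      simpa using h4.symm

lemma IsChain.add {k : ℕ} {x y : Finset ι → W} (hx : IsChain U Q P k x) (hy : IsChain U Q P k y) :
    IsChain U Q P k (x + y) := by
  constructor
  · intro F
    exact (U _).add_mem (hx.1 F) (hy.1 F)
  · intro F hF
    by_cases h : x F = 0
    · refine hy.2 F ?_
      intro h2
      exact hF (by simp [h, h2])
    · exact hx.2 F h

lemma IsChain.neg {k : ℕ} {x : Finset ι → W} (hx : IsChain U Q P k x) :
    IsChain U Q P k (-x) := by
  constructor
  · intro F
    exact (U _).neg_mem (hx.1 F)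
  · intro F hF
    exact hx.2 F (by simpa using hF)

lemma IsChain.mono {k : ℕ} {P' : Finset ι} {x : Finset ι → W} (hU : Antitone U) (hP : P ⊆ P')
    (hx : IsChain U Q P' k x) : IsChain U Q P k x :=
  ⟨fun F => hU (union_subset_union_left hP) (hx.1 F), hx.2⟩

/-- loops make the complex acyclic -/
lemma loop_acyclic {e : ι} {k : ℕ} (he : e ∉ Q) (hl : Loop U P e) : Vanish U (insert e Q) P k := by
  intro c hc hd
  obtain ⟨h1, -⟩ := cycle_parts he hc hd
  have h0 := part0_chain hc
  refine ⟨glue e 0 (part0 e c), glue_chain zero_chain ⟨fun F => hl F (h0.1 F), h0.2⟩, ?_⟩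
  rw [dd_glue he]
  have h2 : (fun F => dd Q (0 : Finset ι → W) F + part0 e c F) = part0 e c := by
    rw [dd_zero]
    funext F
    simp
  have h3 : (fun F => - dd Q (part0 e c) F) = part1 e c := by
    funext F
    have := congrFun h1 F
    simp only [Pi.add_apply, Pi.zero_apply] at this
    exact (eq_neg_of_add_eq_zero_right this).symm
  rw [h2, h3, glue_parts]

/-- the inductive step -/
lemma step {e : ι} {k : ℕ} (hU : Antitone U) (he : e ∉ Q) (h1 : Vanish U Q (insert e P) k)
    (h0 : Vanish U Q P (k + 1)) : Vanish U (insert e Q) P (k + 1) := by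
  intro c hc hd
  obtain ⟨hA, hB⟩ := cycle_parts he hc hd
  obtain ⟨y1, hy1, hdy1⟩ := h1 _ (part1_chain hc) hB
  have hy1' : IsChain U Q P (k + 1) y1 := hy1.mono hU (subset_insert _ _)
  obtain ⟨y0, hy0, hdy0⟩ := h0 (part0 e c + y1) ((part0_chain hc).add hy1') (by
    rw [dd_add, hdy1, hA])
  refine ⟨glue e y0 (-y1), glue_chain hy0 hy1.neg, ?_⟩
  rw [dd_glue he]
  have h2 : (fun F => dd Q y0 F + (-y1) F) = part0 e c := by
    rw [hdy0]
    funext F
    simp
  have h3 : (fun F => - dd Q (-y1) F) = part1 e c := by
    rw [dd_neg, hdy1]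
    funext F
    simp
  rw [h2, h3, glue_parts]

lemma step_zero {e : ι} (he : e ∉ Q)
    (h0 : Vanish U Q P 0) : Vanish U (insert e Q) P 0 := by
  intro c hc hd
  obtain ⟨hA, hB⟩ := cycle_parts he hc hd
  obtain ⟨y0, hy0, hdy0⟩ := h0 (part0 e c) (part0_chain hc) (by
    have := hA
    rw [part1_zero hc, add_zero] at this
    exact this)
  refine ⟨glue e y0 0, glue_chain hy0 zero_chain, ?_⟩
  rw [dd_glue he]
  have h2 : (fun F => dd Q y0 F + (0 : Finset ι → W) F) = part0 e c := by
    rw [hdy0]
    funext F
    simp
  have h3 : (fun F => - dd Q (0 : Finset ι → W) F) = part1 e c := by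
    rw [dd_zero, part1_zero hc]
    funext F
    simp
  rw [h2, h3, glue_parts]

/-- general vanishing theorem -/
theorem vanish_of_comps (hU : Antitone U) (comps : Finset ι → ℕ)
    (H1 : ∀ P e, ¬ Loop U P e → comps (insert e P) < comps P)
    (H2 : ∀ P, comps P ≤ 1 → ∀ e, Loop U P e) (Q : Finset ι) :
    ∀ (P : Finset ι) (k : ℕ), 1 ≤ k → comps P ≤ k + 1 → Vanish U Q P k := by
  induction Q using Finset.induction_on with
  | empty =>
    intro P k hk _ c hc _
    have : c = 0 := by
      funext F
      by_contra hne
      obtain ⟨h1, h2⟩ := hc.2 F hne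
      rw [subset_empty.1 h1] at h2
      simp at h2
      omega
    exact ⟨0, zero_chain, by rw [dd_zero, this]⟩
  | insert e Q he ih =>
    intro P k hk hP
    by_cases hl : Loop U P e
    · exact loop_acyclic he hl
    · have hlt := H1 P e hl
      obtain ⟨k', rfl⟩ : ∃ k', k = k' + 1 := ⟨k - 1, by omega⟩
      rcases Nat.eq_zero_or_pos k' with h | h
      · subst h
        -- all elements are loops over `insert e P`
        rcases Q.eq_empty_or_nonempty with hQ | ⟨f, hf⟩
        · subst hQ
          intro c hc hd
          obtain ⟨hA, -⟩ := cycle_parts he hc hd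
          have h0 : part0 e c = 0 := by
            funext F
            by_contra hne
            obtain ⟨h1, h2⟩ := (part0_chain hc).2 F hne
            rw [subset_empty.1 h1] at h2
            simp at h2
          rw [h0, dd_zero, zero_add] at hA
          have hc0 : c = 0 := by
            rw [← glue_parts e c, h0, hA]
            funext F
            simp [glue]
          exact ⟨0, zero_chain, by rw [dd_zero, hc0]⟩
        · refine step hU he ?_ (ih P (0 + 1) hk hP)
          rw [← insert_erase hf]
          exact loop_acyclic (notMem_erase f Q) (H2 _ (by omega) f)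
      · exact step hU he (ih (insert e P) k' h (by omega)) (ih P (k' + 1) hk hP)

end Pool.Agent.X175.CSH
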