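import Mathlib
import Pool.Agent.X175.CSH.Basic

open Finset

namespace Pool.Agent.X175.CSH

variable {n : ℕ}

/-- pairs of vertices with the lexicographic order -/
abbrev Edge (n : ℕ) := Lex (Fin n × Fin n)

open Classical in
/-- the edges `(i, j)`, `i < j`, of `G`, in lexicographic order -/
noncomputable def edges (G : SimpleGraph (Fin n)) : Finset (Edge n) :=
  Finset.univ.filter (fun e => (ofLex e).1 < (ofLex e).2 ∧ G.Adj (ofLex e).1 (ofLex e).2)

/-- `beta(F)`: two vertices are in the same component of the spanning subgraph `([n], F)` -/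
def comp (F : Finset (Edge n)) : Setoid (Fin n) :=
  Relation.EqvGen.setoid (fun a b => ∃ e ∈ F, (ofLex e).1 = a ∧ (ofLex e).2 = b)

/-- the Young subgroup of `beta(F)` -/
def young (F : Finset (Edge n)) : Subgroup (Equiv.Perm (Fin n)) where
  carrier := {s | ∀ v, comp F (s v) v}
  mul_mem' := by
    intro s t hs ht v
    exact (comp F).trans (hs (t v)) (ht v)
  one_mem' := fun v => (comp F).refl v
  inv_mem' := by
    intro s hs v
    have := hs (s⁻¹ v)
    have h2 : s (s⁻¹ v) = v := by simp
    rw [h2] at this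
    exact (comp F).symm this

lemma comp_mono {F F' : Finset (Edge n)} (h : F' ⊆ F) {a b : Fin n} (hab : comp F' a b) :
    comp F a b := by
  have hab' : Relation.EqvGen
      (fun a b => ∃ e ∈ F', (ofLex e).1 = a ∧ (ofLex e).2 = b) a b := hab
  induction hab' with
  | rel x y hxy =>
    obtain ⟨e, he, h1⟩ := hxy
    exact Relation.EqvGen.rel _ _ ⟨e, h he, h1⟩
  | refl x => exact (comp _).refl x
  | symm x y hxy ih => exact (comp _).symm (ih hxy)
  | trans x y z h1 h2 ih1 ih2 => exact (comp _).trans (ih1 h1) (ih2 h2)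

lemma young_mono {F F' : Finset (Edge n)} (h : F' ⊆ F) : young F' ≤ young F :=
  fun _ hs v => comp_mono h (hs v)

/-- the permutation module `M_F`: the function `x` stands for `sum x(gS) [gS]` over the cosets
`gS`, `S = S_{beta(F)}` -/
abbrev Mod (F : Finset (Edge n)) := (Equiv.Perm (Fin n) ⧸ young F) → ℤ

/-- the transfer map `M_F → M_{F'}`, `F' ⊆ F`: each coset of `S_{beta(F)}` is sent to the sum of
the cosets of `S_{beta(F')}` contained in it; in coefficients, the coefficient of
`g S_{beta(F')}` in the image is the coefficient of `g S_{beta(F)}` -/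
def transfer {F F' : Finset (Edge n)} (h : F' ⊆ F) (x : Mod F) : Mod F' :=
  fun y => x (Subgroup.quotientMapOfLE (young_mono h) y)

/-- the transfer map on the basis: the coset `x` goes to the sum of the cosets contained in it -/
lemma transfer_single {F F' : Finset (Edge n)} (h : F' ⊆ F) [DecidableEq (Equiv.Perm (Fin n) ⧸ young F)]
    (x : Equiv.Perm (Fin n) ⧸ young F) (y : Equiv.Perm (Fin n) ⧸ young F') :
    transfer h (Pi.single x 1) y
      = if Subgroup.quotientMapOfLE (young_mono h) y = x then 1 else 0 := by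
  unfold transfer
  rw [Pi.single_apply]

/-- families of elements of the modules `M_F` -/
abbrev Fam (n : ℕ) := (F : Finset (Edge n)) → Mod F

/-- the elements of `C_i(G)`: families supported on the edge sets `F` of `G` with `|F| = i` -/
def InC (G : SimpleGraph (Fin n)) (i : ℕ) (c : Fam n) : Prop :=
  ∀ F, c F ≠ 0 → F ⊆ edges G ∧ F.card = i

/-- the differential of the degree-zero chromatic symmetric complex -/
noncomputable def diff (G : SimpleGraph (Fin n)) (c : Fam n) : Fam n :=
  fun F => ∑ e ∈ edges G \ F, sgn e F • transfer (subset_insert e F) (c (insert e F))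

/-- `H_k(G;Z) ≠ 0` -/
def HNonzero (G : SimpleGraph (Fin n)) (k : ℕ) : Prop :=
  ∃ c, InC G k c ∧ diff G c = 0 ∧ ¬ ∃ y, InC G (k + 1) y ∧ diff G y = c

/-- `span_0(G)` -/
noncomputable def span0 (G : SimpleGraph (Fin n)) : ℕ := sSup {m | ∃ k, m = k + 1 ∧ HNonzero G k}

/-- the induced subgraph on `S` is connected and has no cut vertex -/
def NoCut (G : SimpleGraph (Fin n)) (S : Set (Fin n)) : Prop :=
  (G.induce S).Connected ∧ ∀ v ∈ S, (G.induce (S \ {v})).Preconnected

/-- vertex sets of blocks -/
def IsBlock (G : SimpleGraph (Fin n)) (S : Set (Fin n)) : Prop :=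
  NoCut G S ∧ ∀ T, S ⊆ T → NoCut G T → T = S

/-- the number of blocks -/
noncomputable def numBlocks (G : SimpleGraph (Fin n)) : ℕ := Set.ncard {S | IsBlock G S}

/-! ### translation into invariant functions -/

/-- right invariant functions with values in `A` -/
def UW (A : Type*) [AddCommGroup A] (P : Finset (Edge n)) : AddSubgroup (Equiv.Perm (Fin n) → A) where
  carrier := {φ | ∀ g, ∀ s ∈ young P, φ (g * s) = φ g}
  zero_mem' := fun _ _ _ => rfl
  add_mem' := by
    intro φ ψ h1 h2 g s hs
    simp only [Pi.add_apply, h1 g s hs, h2 g s hs]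
  neg_mem' := by
    intro φ h1 g s hs
    simp only [Pi.neg_apply, h1 g s hs]

lemma UW_anti (A : Type*) [AddCommGroup A] : Antitone (UW A (n := n)) :=
  fun _ _ h _ hφ g s hs => hφ g s (young_mono h hs)

/-- pull back to the symmetric group -/
def hat (c : Fam n) : Finset (Edge n) → Equiv.Perm (Fin n) → ℤ := fun F g => c F (QuotientGroup.mk g)

lemma hat_mem (c : Fam n) (F : Finset (Edge n)) : hat c F ∈ UW ℤ F := by
  intro g s hs
  unfold hat
  congr 1
  rw [QuotientGroup.eq]
  simpa using hs

lemma hat_diff (G : SimpleGraph (Fin n)) (c : Fam n) : hat (diff G c) = dd (edges G) (hat c) := by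
  funext F g
  unfold hat diff dd
  simp only [Finset.sum_apply, Pi.smul_apply]
  rfl

lemma hat_inj {c c' : Fam n} (h : hat c = hat c') : c = c' := by
  funext F x
  induction x using QuotientGroup.induction_on with
  | H g => exact congrFun (congrFun h F) g

/-- descend to the cosets -/
def unhat (c : Finset (Edge n) → Equiv.Perm (Fin n) → ℤ) (hc : ∀ F, c F ∈ UW ℤ F) : Fam n :=
  fun F x => Quotient.liftOn' x (c F) (by
    intro a b hab
    rw [QuotientGroup.leftRel_apply] at hab
    have := hc F a _ hab
    simpa using this.symm)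

lemma hat_unhat (c : Finset (Edge n) → Equiv.Perm (Fin n) → ℤ) (hc : ∀ F, c F ∈ UW ℤ F) :
    hat (unhat c hc) = c := rfl

lemma hat_ne {c : Fam n} {F : Finset (Edge n)} : hat c F ≠ 0 ↔ c F ≠ 0 := by
  constructor
  · intro h h2
    apply h
    funext g
    unfold hat
    rw [h2]
    rfl
  · intro h h2
    apply h
    funext x
    induction x using QuotientGroup.induction_on with
    | H g => exact congrFun h2 g

lemma inC_iff {G : SimpleGraph (Fin n)} {i : ℕ} {c : Fam n} :
    InC G i c ↔ IsChain (UW ℤ) (edges G) ∅ i (hat c) := by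
  constructor
  · intro h
    refine ⟨fun F => ?_, fun F hF => h F (hat_ne.1 hF)⟩
    rw [empty_union]
    exact hat_mem c F
  · intro h F hF
    exact h.2 F (hat_ne.2 hF)

theorem vanish_iff (G : SimpleGraph (Fin n)) (k : ℕ) :
    Vanish (UW ℤ) (edges G) ∅ k ↔ ¬ HNonzero G k := by
  constructor
  · rintro h ⟨c, hc, hd, hn⟩
    obtain ⟨y, hy, hdy⟩ := h (hat c) (inC_iff.1 hc) (by rw [← hat_diff, hd]; rfl)
    have hy' : ∀ F, y F ∈ UW ℤ F := fun F => by
      have := hy.1 F
      rwa [empty_union] at this
    refine hn ⟨unhat y hy', inC_iff.2 (by rw [hat_unhat]; exact hy), hat_inj ?_⟩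
    rw [hat_diff, hat_unhat, hdy]
  · intro h c hc hd
    have hc' : ∀ F, c F ∈ UW ℤ F := fun F => by
      have := hc.1 F
      rwa [empty_union] at this
    by_contra hn
    refine h ⟨unhat c hc', inC_iff.2 (by rw [hat_unhat]; exact hc), hat_inj ?_, ?_⟩
    · rw [hat_diff, hat_unhat, hd]
      rfl
    · rintro ⟨y, hy, hdy⟩
      refine hn ⟨hat y, inC_iff.1 hy, ?_⟩
      rw [← hat_diff, hdy, hat_unhat]

/-! ### components -/

open Classical in
/-- number of components -/
noncomputable def comps (P : Finset (Edge n)) : ℕ := Fintype.card (Quotient (comp P))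

lemma comp_insert {P : Finset (Edge n)} {e : Edge n} (h : comp P (ofLex e).1 (ofLex e).2)
    {F : Finset (Edge n)} {a b : Fin n} (hab : comp (insert e P ∪ F) a b) : comp (P ∪ F) a b := by
  have hab' : Relation.EqvGen
      (fun a b => ∃ f ∈ insert e P ∪ F, (ofLex f).1 = a ∧ (ofLex f).2 = b) a b := hab
  induction hab' with
  | rel x y hxy =>
    obtain ⟨f, hf, rfl, rfl⟩ := hxy
    rw [mem_union, mem_insert] at hf
    rcases hf with (rfl | hf) | hf
    · exact comp_mono subset_union_left h
    · exact Relation.EqvGen.rel _ _ ⟨f, mem_union_left _ hf, rfl, rfl⟩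
    · exact Relation.EqvGen.rel _ _ ⟨f, mem_union_right _ hf, rfl, rfl⟩
  | refl x => exact (comp _).refl x
  | symm x y hxy ih => exact (comp _).symm (ih hxy)
  | trans x y z h1 h2 ih1 ih2 => exact (comp _).trans (ih1 h1) (ih2 h2)

lemma loop_of_comp (A : Type*) [AddCommGroup A] {P : Finset (Edge n)} {e : Edge n}
    (h : comp P (ofLex e).1 (ofLex e).2) : Loop (UW A) P e := by
  intro F φ hφ g s hs
  exact hφ g s (fun v => comp_insert h (hs v))

lemma comps_lt {P : Finset (Edge n)} {e : Edge n} (h : ¬ comp P (ofLex e).1 (ofLex e).2) :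
    comps (insert e P) < comps P := by
  classical
  unfold comps
  let π : Quotient (comp P) → Quotient (comp (insert e P)) :=
    Quotient.map' id (fun a b hab => comp_mono (subset_insert e P) hab)
  refine Fintype.card_lt_of_surjective_not_injective π ?_ ?_
  · intro x
    induction x using Quotient.inductionOn' with
    | h v => exact ⟨Quotient.mk'' v, rfl⟩
  · intro hinj
    apply h
    have : π (Quotient.mk'' (ofLex e).1) = π (Quotient.mk'' (ofLex e).2) := by
      refine Quotient.sound' ?_
      exact Relation.EqvGen.rel _ _ ⟨e, mem_insert_self e P, rfl, rfl⟩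
    exact Quotient.exact' (hinj this)

lemma comp_of_comps {P : Finset (Edge n)} (h : comps P ≤ 1) (a b : Fin n) : comp P a b := by
  classical
  unfold comps at h
  have := Fintype.card_le_one_iff_subsingleton.1 h
  exact Quotient.exact' (Subsingleton.elim (Quotient.mk'' a : Quotient (comp P)) (Quotient.mk'' b))

lemma comps_empty : comps (∅ : Finset (Edge n)) ≤ n := by
  classical
  unfold comps
  calc Fintype.card (Quotient (comp (∅ : Finset (Edge n)))) ≤ Fintype.card (Fin n) :=
        Fintype.card_quotient_le _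
    _ = n := Fintype.card_fin n

theorem vanish_top (G : SimpleGraph (Fin n)) {k : ℕ} (hk : 1 ≤ k) (hn : n ≤ k + 1) :
    ¬ HNonzero G k := by
  rw [← vanish_iff]
  refine vanish_of_comps (UW_anti ℤ) comps ?_ ?_ _ _ _ hk (comps_empty.trans hn)
  · intro P e he
    exact comps_lt (fun h => he (loop_of_comp ℤ h))
  · intro P hP e
    exact loop_of_comp ℤ (comp_of_comps hP _ _)

/-- `H_0 ≠ 0` -/
lemma h0 (G : SimpleGraph (Fin n)) : HNonzero G 0 := by
  classical
  rw [← not_not (a := HNonzero G 0), ← vanish_iff]
  intro hv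
  -- the delta function at the identity
  have hdelta : IsChain (UW ℤ) (edges G) ∅ 0
      (fun F => if F = ∅ then (Pi.single 1 1 : Equiv.Perm (Fin n) → ℤ) else 0) := by
    constructor
    · intro F
      dsimp only
      split_ifs with h
      · subst h
        intro g s hs
        have hs1 : s = 1 := by
          ext v
          have hv := hs v
          have key : ∀ a b, comp (∅ ∪ ∅ : Finset (Edge n)) a b → a = b := by
            intro a b hab
            have hab' : Relation.EqvGen
              (fun a b => ∃ f ∈ (∅ ∪ ∅ : Finset (Edge n)), (ofLex f).1 = a ∧ (ofLex f).2 = b) a b := hab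
            induction hab' with
            | rel x y hxy => obtain ⟨f, hf, -⟩ := hxy; simp at hf
            | refl x => rfl
            | symm x y hxy ih => exact (ih hxy).symm
            | trans x y z h1 h2 ih1 ih2 => exact (ih1 h1).trans (ih2 h2)
          rw [key _ _ hv]
          rfl
        rw [hs1, mul_one]
      · exact (UW ℤ _).zero_mem
    · intro F hF
      dsimp only at hF
      split_ifs at hF with h
      · exact ⟨by simp [h], by simp [h]⟩
      · exact absurd rfl hF
  obtain ⟨y, hy, hdy⟩ := hv _ hdelta (by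
    funext F
    unfold dd
    refine sum_eq_zero fun e _ => ?_
    dsimp only
    rw [if_neg (insert_ne_empty e F), smul_zero])
  -- apply the sign functional
  have h1 := congrFun hdy ∅
  rw [if_pos rfl] at h1
  have h3 : ∑ g : Equiv.Perm (Fin n), ((Equiv.Perm.sign g : ℤˣ) : ℤ) *
      (Pi.single 1 1 : Equiv.Perm (Fin n) → ℤ) g = 1 := by
    rw [Finset.sum_eq_single 1]
    · simp
    · intro g _ hg
      simp [Pi.single_apply, hg]
    · simp
  have h2 := congrArg (fun φ : Equiv.Perm (Fin n) → ℤ =>
    ∑ g : Equiv.Perm (Fin n), ((Equiv.Perm.sign g : ℤˣ) : ℤ) * φ g) h1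
  rw [h3] at h2
  unfold dd at h2
  simp only [Finset.sum_apply, Pi.smul_apply, Finset.mul_sum] at h2
  rw [Finset.sum_comm] at h2
  rw [Finset.sum_eq_zero] at h2
  · exact absurd h2 (by norm_num)
  · intro e he
    rw [mem_sdiff] at he
    have hel : (ofLex e).1 ≠ (ofLex e).2 := by
      have := he.1
      unfold edges at this
      rw [mem_filter] at this
      exact this.2.1.ne
    set τ := Equiv.swap (ofLex e).1 (ofLex e).2 with hτ
    have hτy : τ ∈ young (∅ ∪ insert e (∅ : Finset (Edge n))) := by
      intro v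
      have hr : comp (∅ ∪ insert e (∅ : Finset (Edge n))) (ofLex e).1 (ofLex e).2 :=
        Relation.EqvGen.rel _ _ ⟨e, by simp, rfl, rfl⟩
      by_cases h1 : v = (ofLex e).1
      · rw [h1, hτ, Equiv.swap_apply_left]
        exact (comp _).symm hr
      · by_cases h2 : v = (ofLex e).2
        · rw [h2, hτ, Equiv.swap_apply_right]
          try exact hr
        · rw [hτ, Equiv.swap_apply_of_ne_of_ne h1 h2]
    have hinv := hy.1 (insert e ∅)
    set φ := y (insert e ∅) with hφ
    have hsum : ∑ g : Equiv.Perm (Fin n), ((Equiv.Perm.sign g : ℤˣ) : ℤ) * φ g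
        = - ∑ g : Equiv.Perm (Fin n), ((Equiv.Perm.sign g : ℤˣ) : ℤ) * φ g := by
      conv_lhs => rw [← Equiv.sum_comp (Equiv.mulRight τ)]
      rw [← Finset.sum_neg_distrib]
      refine Finset.sum_congr rfl fun g _ => ?_
      rw [Equiv.coe_mulRight, hinv g τ hτy, Equiv.Perm.sign_mul, hτ, Equiv.Perm.sign_swap hel]
      simp
    have hz : ∑ g : Equiv.Perm (Fin n), ((Equiv.Perm.sign g : ℤˣ) : ℤ) * φ g = 0 := by linarith
    have : ∀ g : Equiv.Perm (Fin n), ((Equiv.Perm.sign g : ℤˣ) : ℤ) * (sgn e ∅ • φ g)
        = sgn e ∅ * (((Equiv.Perm.sign g : ℤˣ) : ℤ) * φ g) := by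
      intro g
      rw [smul_eq_mul]
      ring
    simp only [this]
    rw [← Finset.mul_sum, hz, mul_zero]

end Pool.Agent.X175.CSH
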