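import Mathlib
import Pool.Agent.X175.CSH.Basic

open Finset

namespace Pool.Agent.X175.CSH

section forms

variable {X : Type*} [AddCommGroup X] [Module ℚ X]

/-- forms vanishing when an argument lies in `K` -/
def ann (b : ℕ) (K : Submodule ℚ X) : Submodule ℚ (X [⋀^Fin b]→ₗ[ℚ] ℚ) where
  carrier := {ω | ∀ v : Fin b → X, (∃ i, v i ∈ K) → ω v = 0}
  zero_mem' := fun _ _ => rfl
  add_mem' := by
    intro x y hx hy v hv
    rw [AlternatingMap.add_apply, hx v hv, hy v hv, add_zero]
  smul_mem' := by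
    intro c x hx v hv
    rw [AlternatingMap.smul_apply, hx v hv, smul_zero]

lemma ann_anti (b : ℕ) {K K' : Submodule ℚ X} (h : K ≤ K') : ann b K' ≤ ann b K := by
  intro ω hω v hv
  obtain ⟨i, hi⟩ := hv
  exact hω v ⟨i, h hi⟩

lemma congr_mod {b : ℕ} {K : Submodule ℚ X} {ω : X [⋀^Fin b]→ₗ[ℚ] ℚ} (hω : ω ∈ ann b K)
    {v w : Fin b → X} (h : ∀ i, v i - w i ∈ K) : ω v = ω w := by
  classical
  have key : ∀ s : Finset (Fin b), ω (fun i => if i ∈ s then v i else w i) = ω w := by
    intro s
    induction s using Finset.induction_on with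
    | empty => simp
    | insert i0 s hi0 ih =>
      set u : Fin b → X := fun i => if i ∈ s then v i else w i with hu
      have h1 : (fun i => if i ∈ insert i0 s then v i else w i)
          = Function.update u i0 (w i0 + (v i0 - w i0)) := by
        funext i
        by_cases hi : i = i0
        · subst hi
          simp
        · rw [Function.update_of_ne hi, hu]
          simp [hi]
      rw [h1, AlternatingMap.map_update_add]
      have h2 : Function.update u i0 (w i0) = u := by
        funext i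
        by_cases hi : i = i0
        · subst hi
          simp [hu, hi0]
        · rw [Function.update_of_ne hi]
      have h3 : ω (Function.update u i0 (v i0 - w i0)) = 0 := by
        refine hω _ ⟨i0, ?_⟩
        rw [Function.update_self]
        exact h i0
      rw [h2, h3, ih, add_zero]
  have := key Finset.univ
  simpa using this

lemma curry_mem {b : ℕ} {K : Submodule ℚ X} {ω : X [⋀^Fin (b + 1)]→ₗ[ℚ] ℚ}
    (hω : ω ∈ ann (b + 1) K) (x : X) :
    ω.curryLeft x ∈ ann b (K ⊔ Submodule.span ℚ {x}) := by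
  classical
  have h0 : ∀ v : Fin b → X, (∃ i, v i ∈ K) → ω.curryLeft x v = 0 := by
    rintro v ⟨i, hi⟩
    rw [AlternatingMap.curryLeft_apply_apply]
    exact hω _ ⟨i.succ, by simpa using hi⟩
  rintro v ⟨i, hi⟩
  obtain ⟨k, hk, y, hy, hky⟩ := Submodule.mem_sup.1 hi
  obtain ⟨c, rfl⟩ := Submodule.mem_span_singleton.1 hy
  have h1 : v = Function.update v i (k + c • x) := by
    rw [hky, Function.update_eq_self]
  rw [h1, AlternatingMap.map_update_add, AlternatingMap.map_update_smul]
  rw [h0 _ ⟨i, by simpa using hk⟩]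
  have h2 : ω.curryLeft x (Function.update v i x) = 0 := by
    rw [AlternatingMap.curryLeft_apply_apply]
    refine AlternatingMap.map_eq_zero_of_eq ω _ (i := 0) (j := i.succ) ?_ (Fin.succ_ne_zero i).symm
    simp
  rw [h2]
  simp

lemma ker_curry {b : ℕ} {K : Submodule ℚ X} {ω : X [⋀^Fin (b + 1)]→ₗ[ℚ] ℚ}
    (hω : ω ∈ ann (b + 1) K) (x : X) (hx : ω.curryLeft x = 0) :
    ω ∈ ann (b + 1) (K ⊔ Submodule.span ℚ {x}) := by
  classical
  have h0 : ∀ u : Fin (b + 1) → X, u 0 = x → ω u = 0 := by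
    intro u hu
    have : u = Matrix.vecCons x (Fin.tail u) := by
      rw [← hu]
      exact (Fin.cons_self_tail u).symm
    rw [this, ← AlternatingMap.curryLeft_apply_apply, hx]
    rfl
  have h1 : ∀ (u : Fin (b + 1) → X) (i : Fin (b + 1)), u i = x → ω u = 0 := by
    intro u i hu
    by_cases hi : i = 0
    · exact h0 u (hi ▸ hu)
    · have h2 := AlternatingMap.map_swap ω u (i := 0) (j := i) (Ne.symm hi)
      rw [h0 (u ∘ Equiv.swap 0 i) (by simp [hu])] at h2
      linarith
  rintro v ⟨i, hi⟩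
  obtain ⟨k, hk, y, hy, hky⟩ := Submodule.mem_sup.1 hi
  obtain ⟨c, rfl⟩ := Submodule.mem_span_singleton.1 hy
  have h2 : v = Function.update v i (k + c • x) := by
    rw [hky, Function.update_eq_self]
  rw [h2, AlternatingMap.map_update_add, AlternatingMap.map_update_smul]
  rw [hω _ ⟨i, by simpa using hk⟩, h1 _ i (by simp)]
  simp

lemma curry_ker {b : ℕ} {K : Submodule ℚ X} {ω : X [⋀^Fin (b + 1)]→ₗ[ℚ] ℚ} {x : X}
    (hω : ω ∈ ann (b + 1) (K ⊔ Submodule.span ℚ {x})) : ω.curryLeft x = 0 := by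
  ext v
  rw [AlternatingMap.curryLeft_apply_apply]
  exact hω _ ⟨0, Submodule.mem_sup_right (Submodule.mem_span_singleton_self x)⟩

lemma exists_lift {b : ℕ} {K : Submodule ℚ X} {x : X} (hx : x ∉ K) {θ : X [⋀^Fin b]→ₗ[ℚ] ℚ}
    (hθ : θ ∈ ann b (K ⊔ Submodule.span ℚ {x})) :
    ∃ ω ∈ ann (b + 1) K, ω.curryLeft x = θ := by
  -- a functional
  obtain ⟨l, hlK, hlx⟩ : ∃ l : X →ₗ[ℚ] ℚ, (∀ y ∈ K, l y = 0) ∧ l x = 1 := by
    have h1 : K.mkQ x ≠ 0 := by
      intro h
      exact hx ((Submodule.Quotient.mk_eq_zero K).1 h)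
    obtain ⟨φ, hφ⟩ : ∃ φ : Module.Dual ℚ (X ⧸ K), φ (K.mkQ x) ≠ 0 := by
      by_contra hcon
      push Not at hcon
      exact h1 ((Module.forall_dual_apply_eq_zero_iff ℚ _).1 hcon)
    refine ⟨(φ (K.mkQ x))⁻¹ • (φ.comp K.mkQ), ?_, ?_⟩
    · intro y hy
      have : K.mkQ y = 0 := (Submodule.Quotient.mk_eq_zero K).2 hy
      simp [this]
    · simp only [LinearMap.smul_apply, LinearMap.comp_apply, smul_eq_mul]
      exact inv_mul_cancel₀ hφ
  refine ⟨AlternatingMap.alternatizeUncurryFin (l.smulRight θ), ?_, ?_⟩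
  · rintro v ⟨j, hj⟩
    rw [AlternatingMap.alternatizeUncurryFin_apply]
    refine Finset.sum_eq_zero fun i _ => ?_
    by_cases hij : i = j
    · subst hij
      simp [hlK _ hj]
    · obtain ⟨k, hk⟩ := Fin.exists_succAbove_eq (x := j) (y := i) (Ne.symm hij)
      have : θ (i.removeNth v) = 0 := by
        refine hθ _ ⟨k, ?_⟩
        rw [Fin.removeNth_apply, hk]
        exact Submodule.mem_sup_left hj
      simp [this]
  · ext v
    rw [AlternatingMap.curryLeft_apply_apply, AlternatingMap.alternatizeUncurryFin_apply]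
    rw [Fin.sum_univ_succ, Finset.sum_eq_zero, add_zero]
    · simp only [Fin.val_zero, pow_zero, one_smul, Matrix.cons_val_zero,
        LinearMap.smulRight_apply, hlx]
      congr 1
    · intro i _
      have : θ (i.succ.removeNth (Matrix.vecCons x v)) = 0 := by
        obtain ⟨k, hk⟩ := Fin.exists_succAbove_eq (x := 0) (y := i.succ) (Fin.succ_ne_zero i).symm
        refine hθ _ ⟨k, ?_⟩
        rw [Fin.removeNth_apply, hk]
        exact Submodule.mem_sup_right (Submodule.mem_span_singleton_self x)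
      simp [this]

variable [FiniteDimensional ℚ X]

lemma ann_eq_zero {b : ℕ} {K : Submodule ℚ X} (h : Module.finrank ℚ X < b + Module.finrank ℚ K)
    {ω : X [⋀^Fin b]→ₗ[ℚ] ℚ} (hω : ω ∈ ann b K) : ω = 0 := by
  ext v
  obtain ⟨s, hs⟩ := K.mkQ.exists_rightInverse_of_surjective
    (LinearMap.range_eq_top.2 (Submodule.mkQ_surjective K))
  have hs' : ∀ y, K.mkQ (s y) = y := fun y => LinearMap.congr_fun hs y
  have h1 : ω v = ω (fun i => s (K.mkQ (v i))) := by
    refine congr_mod hω fun i => ?_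
    rw [← Submodule.Quotient.mk_eq_zero K]
    have := hs' (K.mkQ (v i))
    simp only [Submodule.mkQ_apply] at this ⊢
    rw [Submodule.Quotient.mk_sub, this, sub_self]
  rw [h1]
  have h2 : ¬ LinearIndependent ℚ (fun i => s (K.mkQ (v i))) := by
    intro hli
    have h3 : LinearIndependent ℚ (fun i => K.mkQ (v i)) :=
      LinearIndependent.of_comp s hli
    have h4 := h3.fintype_card_le_finrank
    rw [Fintype.card_fin] at h4
    have h5 := Submodule.finrank_quotient_add_finrank K
    omega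
  rw [AlternatingMap.map_linearDependent ω _ h2]
  rfl

lemma finrank_sup_singleton {K : Submodule ℚ X} {x : X} (hx : x ∉ K) :
    Module.finrank ℚ (K ⊔ Submodule.span ℚ {x} : Submodule ℚ X) = Module.finrank ℚ K + 1 := by
  have h1 := Submodule.finrank_sup_add_finrank_inf_eq K (Submodule.span ℚ {x})
  have h2 : K ⊓ Submodule.span ℚ {x} = ⊥ := by
    rw [eq_bot_iff]
    rintro y ⟨hy1, hy2⟩
    obtain ⟨c, rfl⟩ := Submodule.mem_span_singleton.1 hy2
    by_cases hc : c = 0
    · simp [hc]
    · exfalso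
      apply hx
      have := K.smul_mem c⁻¹ hy1
      rwa [smul_smul, inv_mul_cancel₀ hc, one_smul] at this
  have h3 : Module.finrank ℚ (Submodule.span ℚ {x} : Submodule ℚ X) = 1 := by
    refine finrank_span_singleton ?_
    rintro rfl
    exact hx K.zero_mem
  rw [h2, finrank_bot, h3] at h1
  omega

end forms

end Pool.Agent.X175.CSH
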