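import Mathlib
import Pool.Agent.X175.CSH.Alt

open Finset

namespace Pool.Agent.X175.CSH

variable {ι : Type*} [LinearOrder ι] {X : Type*} [AddCommGroup X] [Module ℚ X]

lemma dd_map {W W' : Type*} [AddCommGroup W] [AddCommGroup W'] (f : W →+ W') (Q : Finset ι)
    (c : Finset ι → W) : dd Q (fun F => f (c F)) = fun F => f (dd Q c F) := by
  funext F
  unfold dd
  simp only [map_sum, map_zsmul]

lemma dd_dd {W : Type*} [AddCommGroup W] (Q : Finset ι) (c : Finset ι → W) :
    dd Q (dd Q c) = 0 := by
  induction Q using Finset.induction_on generalizing c with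
  | empty =>
    funext F
    unfold dd
    simp
  | insert e Q he ih =>
    rw [← glue_parts e c, dd_glue he, dd_glue he]
    funext F
    have h1 : dd Q (fun F => dd Q (part0 e c) F + part1 e c F)
        = dd Q (part1 e c) := by
      have : (fun F => dd Q (part0 e c) F + part1 e c F) = dd Q (part0 e c) + part1 e c := rfl
      rw [this, dd_add, ih, zero_add]
    have h2 : dd Q (fun F => - dd Q (part1 e c) F) = 0 := by
      have : (fun F => - dd Q (part1 e c) F) = - dd Q (part1 e c) := rfl
      rw [this, dd_neg, ih, neg_zero]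
    unfold glue
    rw [h1, h2]
    simp

variable (α : ι → X)

/-- the span of the vectors of `P` -/
def NN (P : Finset ι) : Submodule ℚ X := Submodule.span ℚ (α '' (P : Set ι))

lemma NN_mono {P P' : Finset ι} (h : P ⊆ P') : NN α P ≤ NN α P' :=
  Submodule.span_mono (Set.image_mono (by exact_mod_cast h))

lemma NN_insert (P : Finset ι) (e : ι) :
    NN α (insert e P) = NN α P ⊔ Submodule.span ℚ {α e} := by
  unfold NN
  rw [coe_insert, Set.image_insert_eq, Submodule.span_insert, sup_comm]

/-- the modules of forms -/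
def UB (b : ℕ) (P : Finset ι) : AddSubgroup (X [⋀^Fin b]→ₗ[ℚ] ℚ) := (ann b (NN α P)).toAddSubgroup

lemma mem_UB {b : ℕ} {P : Finset ι} {ω : X [⋀^Fin b]→ₗ[ℚ] ℚ} :
    ω ∈ UB α b P ↔ ω ∈ ann b (NN α P) := Iff.rfl

lemma UB_anti (b : ℕ) : Antitone (UB α b) := fun _ _ h => ann_anti b (NN_mono α h)

lemma UB_insert {b : ℕ} {P F : Finset ι} {e : ι} {ω : X [⋀^Fin b]→ₗ[ℚ] ℚ} :
    ω ∈ UB α b (insert e P ∪ F) ↔ ω ∈ ann b (NN α (P ∪ F) ⊔ Submodule.span ℚ {α e}) := by
  rw [mem_UB, insert_union, NN_insert]

lemma UB_loop {b : ℕ} {P : Finset ι} {e : ι} (h : α e ∈ NN α P) : Loop (UB α b) P e := by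
  intro F ω hω
  rw [UB_insert]
  have : NN α (P ∪ F) ⊔ Submodule.span ℚ {α e} = NN α (P ∪ F) := by
    rw [sup_eq_left, Submodule.span_singleton_le_iff_mem]
    exact NN_mono α subset_union_left h
  rw [this]
  exact hω

variable [FiniteDimensional ℚ X]

/-- the rank of `P` -/
noncomputable def rk (P : Finset ι) : ℕ := Module.finrank ℚ (NN α P)

lemma rk_insert {P : Finset ι} {e : ι} (h : α e ∉ NN α P) : rk α (insert e P) = rk α P + 1 := by
  unfold rk
  rw [NN_insert, finrank_sup_singleton h]

lemma vanish_empty {W : Type*} [AddCommGroup W] (U : Finset ι → AddSubgroup W) (P : Finset ι)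
    {k : ℕ} (h : k ≠ 0 ∨ ∀ x ∈ U (P ∪ ∅), x = 0) : Vanish U ∅ P k := by
  intro c hc _
  have : c = 0 := by
    funext F
    by_contra hne
    obtain ⟨h1, h2⟩ := hc.2 F hne
    rw [subset_empty.1 h1] at h2
    rcases h with h | h
    · simp at h2
      exact h h2.symm
    · have h3 := hc.1 F
      rw [subset_empty.1 h1] at h3 hne
      exact hne (h _ h3)
  exact ⟨0, zero_chain, by rw [dd_zero, this]⟩

/-- vanishing above -/
theorem vanish_above (b : ℕ) (Q : Finset ι) : ∀ (P : Finset ι) (k : ℕ),
    Module.finrank ℚ X < k + b + rk α P → Vanish (UB α b) Q P k := by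
  induction Q using Finset.induction_on with
  | empty =>
    intro P k h
    rcases Nat.eq_zero_or_pos k with hk | hk
    · subst hk
      refine vanish_empty _ _ (Or.inr ?_)
      intro x hx
      rw [union_empty, mem_UB] at hx
      exact ann_eq_zero (by unfold rk at h; omega) hx
    · exact vanish_empty _ _ (Or.inl (by omega))
  | insert e Q he ih =>
    intro P k h
    by_cases hl : α e ∈ NN α P
    · exact loop_acyclic he (UB_loop α hl)
    · rcases Nat.eq_zero_or_pos k with hk | hk
      · subst hk
        exact step_zero he (ih P 0 h)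
      · obtain ⟨k', rfl⟩ : ∃ k', k = k' + 1 := ⟨k - 1, by omega⟩
        refine step (UB_anti α b) he (ih _ _ ?_) (ih P _ h)
        rw [rk_insert α hl]
        omega

/-- chains of one degree less, for gluing -/
lemma glue_chain' {W : Type*} [AddCommGroup W] {U : Finset ι → AddSubgroup W} {Q P : Finset ι}
    {e : ι} {k : ℕ} {y0 y1 : Finset ι → W}
    (h0 : IsChain U Q P k y0) (h1 : ∀ F, y1 F ∈ U (insert e P ∪ F))
    (h1' : ∀ F, y1 F ≠ 0 → F ⊆ Q ∧ F.card + 1 = k) :
    IsChain U (insert e Q) P k (glue e y0 y1) := by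
  constructor
  · intro F
    unfold glue
    split_ifs with h
    · refine (U _).zsmul_mem ?_ _
      have := h1 (F.erase e)
      rwa [insert_union, ← union_insert, insert_erase h] at this
    · exact h0.1 F
  · intro F hF
    unfold glue at hF
    split_ifs at hF with h
    · have h3 : y1 (F.erase e) ≠ 0 := by
        intro h4
        rw [h4, smul_zero] at hF
        exact hF rfl
      obtain ⟨h4, h5⟩ := h1' _ h3
      rw [card_erase_of_mem h] at h5
      have h6 : 0 < F.card := card_pos.2 ⟨e, h⟩
      exact ⟨subset_insert_iff.2 h4, by omega⟩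
    · obtain ⟨h4, h5⟩ := h0.2 _ hF
      exact ⟨h4.trans (subset_insert _ _), h5⟩

lemma dd_supp {W : Type*} [AddCommGroup W] {U : Finset ι → AddSubgroup W} {Q P : Finset ι}
    {k : ℕ} {c : Finset ι → W} (hc : IsChain U Q P k c) {F : Finset ι} (hF : dd Q c F ≠ 0) :
    F ⊆ Q ∧ F.card + 1 = k := by
  unfold dd at hF
  obtain ⟨e, he, hne⟩ := Finset.exists_ne_zero_of_sum_ne_zero hF
  rw [mem_sdiff] at he
  have h3 : c (insert e F) ≠ 0 := by
    intro h4
    rw [h4, smul_zero] at hne
    exact hne rfl
  obtain ⟨h1, h2⟩ := hc.2 _ h3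
  rw [card_insert_of_notMem he.2] at h2
  exact ⟨(subset_insert e F).trans h1, h2⟩

lemma dd_mem {W : Type*} [AddCommGroup W] {U : Finset ι → AddSubgroup W} {Q P : Finset ι}
    (hU : Antitone U) {c : Finset ι → W} (hc : ∀ F, c F ∈ U (P ∪ F)) (F : Finset ι) :
    dd Q c F ∈ U (P ∪ F) := by
  unfold dd
  refine (U _).sum_mem fun e _ => (U _).zsmul_mem ?_ _
  exact hU (union_subset_union_right (subset_insert e F)) (hc _)

/-- lifting families of forms along the residue map -/
lemma exists_family_lift {b : ℕ} {Q P : Finset ι} {e : ι} {k : ℕ}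
    (hbr : α e ∉ NN α (P ∪ Q)) {θ : Finset ι → X [⋀^Fin b]→ₗ[ℚ] ℚ}
    (hθ : IsChain (UB α b) Q (insert e P) k θ) :
    ∃ c : Finset ι → X [⋀^Fin (b + 1)]→ₗ[ℚ] ℚ, IsChain (UB α (b + 1)) Q P k c ∧
      ∀ F, (c F).curryLeft (α e) = θ F := by
  have h : ∀ F, ∃ ω : X [⋀^Fin (b + 1)]→ₗ[ℚ] ℚ, ω ∈ UB α (b + 1) (P ∪ F) ∧
      ω.curryLeft (α e) = θ F ∧ (θ F = 0 → ω = 0) := by
    intro F
    by_cases hF : θ F = 0
    · refine ⟨0, (UB α (b + 1) _).zero_mem, ?_, fun _ => rfl⟩
      rw [hF]
      simp
    · obtain ⟨h1, -⟩ := hθ.2 F hF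
      have h2 : α e ∉ NN α (P ∪ F) := fun h => hbr (NN_mono α (union_subset_union_right h1) h)
      have h3 := hθ.1 F
      rw [UB_insert] at h3
      obtain ⟨ω, hω, hωe⟩ := exists_lift h2 h3
      exact ⟨ω, hω, hωe, fun h => absurd h hF⟩
  choose c hc using h
  refine ⟨c, ⟨fun F => (hc F).1, fun F hF => ?_⟩, fun F => (hc F).2.1⟩
  refine hθ.2 F ?_
  intro h
  exact hF ((hc F).2.2 h)

/-- the residue map as an additive map -/
def res (b : ℕ) (x : X) : (X [⋀^Fin (b + 1)]→ₗ[ℚ] ℚ) →+ (X [⋀^Fin b]→ₗ[ℚ] ℚ) where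
  toFun ω := ω.curryLeft x
  map_zero' := by simp
  map_add' := by
    intro a c
    rfl

/-- bridges: the homology is that of the contraction with one variable less -/
theorem bridge_vanish {b k : ℕ} {Q P : Finset ι} {e : ι} (he : e ∉ Q)
    (hbr : α e ∉ NN α (P ∪ Q)) :
    Vanish (UB α (b + 1)) (insert e Q) P k ↔ Vanish (UB α b) Q (insert e P) k := by
  have hres : ∀ c : Finset ι → X [⋀^Fin (b + 1)]→ₗ[ℚ] ℚ,
      dd Q (fun F => res b (α e) (c F)) = fun F => res b (α e) (dd Q c F) := dd_map _ Q
  have hmem : ∀ {c : Finset ι → X [⋀^Fin (b + 1)]→ₗ[ℚ] ℚ}, (∀ F, c F ∈ UB α (b + 1) (P ∪ F)) →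
      ∀ F, res b (α e) (c F) ∈ UB α b (insert e P ∪ F) := by
    intro c hc F
    rw [UB_insert]
    exact curry_mem (hc F) (α e)
  have hker : ∀ {ω : X [⋀^Fin (b + 1)]→ₗ[ℚ] ℚ} {F : Finset ι}, ω ∈ UB α (b + 1) (P ∪ F) →
      res b (α e) ω = 0 → ω ∈ UB α (b + 1) (insert e P ∪ F) := by
    intro ω F h1 h2
    rw [UB_insert]
    exact ker_curry h1 (α e) h2
  have hker' : ∀ {ω : X [⋀^Fin (b + 1)]→ₗ[ℚ] ℚ} {F : Finset ι},
      ω ∈ UB α (b + 1) (insert e P ∪ F) → res b (α e) ω = 0 := by
    intro ω F h1
    rw [UB_insert] at h1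
    exact curry_ker h1
  constructor
  · intro hv θ hθ hdθ
    obtain ⟨c0, hc0, hres0⟩ := exists_family_lift α hbr hθ
    have hres0' : (fun F => res b (α e) (c0 F)) = θ := funext hres0
    have hd0 : ∀ F, res b (α e) (dd Q c0 F) = 0 := by
      intro F
      have := congrFun (hres c0) F
      rw [hres0', hdθ] at this
      exact this.symm
    set c1 : Finset ι → X [⋀^Fin (b + 1)]→ₗ[ℚ] ℚ := fun F => - dd Q c0 F with hc1
    have hchain : IsChain (UB α (b + 1)) (insert e Q) P k (glue e c0 c1) := by
      refine glue_chain' hc0 ?_ ?_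
      · intro F
        exact (UB α (b + 1) _).neg_mem (hker (dd_mem (UB_anti α (b + 1)) hc0.1 F) (hd0 F))
      · intro F hF
        exact dd_supp hc0 (F := F) (fun h => hF (by rw [hc1]; simp [h]))
    have hcyc : dd (insert e Q) (glue e c0 c1) = 0 := by
      rw [dd_glue he]
      have h1 : (fun F => dd Q c0 F + c1 F) = 0 := by
        funext F
        simp [hc1]
      have h2 : (fun F => - dd Q c1 F) = 0 := by
        have : c1 = - dd Q c0 := rfl
        rw [this, dd_neg, dd_dd]
        funext F
        simp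
      rw [h1, h2]
      funext F
      simp [glue]
    obtain ⟨y, hy, hdy⟩ := hv _ hchain hcyc
    rw [← glue_parts e y, dd_glue he] at hdy
    have hy0 := part0_chain hy
    have hy1 := part1_chain hy
    refine ⟨fun F => res b (α e) (part0 e y F), ⟨hmem hy0.1, ?_⟩, ?_⟩
    · intro F hF
      refine hy0.2 F ?_
      intro h
      exact hF (by dsimp only; rw [h, map_zero])
    · rw [hres]
      funext F
      by_cases heF : e ∈ F
      · -- both sides vanish
        have h1 : θ F = 0 := by
          by_contra hne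
          exact he ((hθ.2 F hne).1 heF)
        have h2 : dd Q (part0 e y) F = 0 := by
          by_contra hne
          exact he ((dd_supp hy0 hne).1 heF)
        rw [h1, h2, map_zero]
      · have h1 := congrFun hdy F
        simp only [glue, if_neg heF] at h1
        have h2 := congrArg (res b (α e)) h1
        rw [map_add, hker' (hy1.1 F), add_zero] at h2
        rw [h2]
        exact hres0 F
  · intro hv c hc hd
    obtain ⟨hA, hB⟩ := cycle_parts he hc hd
    have hc0 := part0_chain hc
    have hc1' : ∀ F, part1 e c F ∈ UB α (b + 1) (insert e P ∪ F) := by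
      intro F
      unfold part1
      split_ifs
      · exact (UB α (b + 1) _).zero_mem
      · refine (UB α (b + 1) _).zsmul_mem ?_ _
        have := hc.1 (insert e F)
        rwa [union_insert, ← insert_union] at this
    have hdc0 : ∀ F, dd Q (part0 e c) F = - part1 e c F := by
      intro F
      have := congrFun hA F
      simp only [Pi.add_apply, Pi.zero_apply] at this
      exact eq_neg_of_add_eq_zero_left this
    obtain ⟨θ, hθ, hdθ⟩ := hv (fun F => res b (α e) (part0 e c F)) ⟨hmem hc0.1, by
      intro F hF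
      refine hc0.2 F ?_
      intro h
      exact hF (by dsimp only; rw [h, map_zero])⟩ (by
      rw [hres]
      funext F
      rw [hdc0, map_neg, hker' (hc1' F), neg_zero]
      rfl)
    obtain ⟨y0, hy0, hry0⟩ := exists_family_lift α hbr hθ
    have hry0' : (fun F => res b (α e) (y0 F)) = θ := funext hry0
    set y1 : Finset ι → X [⋀^Fin (b + 1)]→ₗ[ℚ] ℚ := fun F => part0 e c F - dd Q y0 F with hy1
    have hy1ker : ∀ F, res b (α e) (y1 F) = 0 := by
      intro F
      rw [hy1]
      simp only [map_sub]
      have h1 := congrFun (hres y0) F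
      rw [hry0', hdθ] at h1
      rw [← h1, sub_self]
    have hchain : IsChain (UB α (b + 1)) (insert e Q) P (k + 1) (glue e y0 y1) := by
      refine glue_chain' hy0 ?_ ?_
      · intro F
        refine hker ((UB α (b + 1) _).sub_mem (hc0.1 F) (dd_mem (UB_anti α (b + 1)) hy0.1 F))
          (hy1ker F)
      · intro F hF
        by_cases h : part0 e c F = 0
        · have h2 : dd Q y0 F ≠ 0 := by
            intro h3
            apply hF
            rw [hy1]
            simp [h, h3]
          exact dd_supp hy0 h2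
        · obtain ⟨h1, h2⟩ := hc0.2 F h
          exact ⟨h1, by omega⟩
    refine ⟨glue e y0 y1, hchain, ?_⟩
    rw [dd_glue he]
    have h2 : (fun F => dd Q y0 F + y1 F) = part0 e c := by
      funext F
      simp [hy1]
    have h3 : (fun F => - dd Q y1 F) = part1 e c := by
      have : y1 = part0 e c + (- dd Q y0) := by
        funext F
        simp [hy1, sub_eq_add_neg]
      rw [this, dd_add, dd_neg, dd_dd]
      funext F
      simp [hdc0]
    rw [h2, h3, glue_parts]

/-- vanishing below, for spanning families -/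
theorem vanish_below (Q : Finset ι) : ∀ (b : ℕ) (P : Finset ι) (k : ℕ),
    NN α (P ∪ Q) = ⊤ → k + b + rk α P < Module.finrank ℚ X → Vanish (UB α b) Q P k := by
  induction Q using Finset.induction_on with
  | empty =>
    intro b P k hs h
    exfalso
    rw [union_empty] at hs
    unfold rk at h
    rw [hs, finrank_top] at h
    omega
  | insert e Q he ih =>
    intro b P k hs h
    by_cases hl : α e ∈ NN α P
    · exact loop_acyclic he (UB_loop α hl)
    · by_cases hbr : α e ∈ NN α (P ∪ Q)
      · have hs' : NN α (P ∪ Q) = ⊤ := by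
          rw [← hs, union_insert, NN_insert]
          symm
          rw [sup_eq_left, Submodule.span_singleton_le_iff_mem]
          exact hbr
        rcases Nat.eq_zero_or_pos k with hk | hk
        · subst hk
          exact step_zero he (ih b P 0 hs' h)
        · obtain ⟨k', rfl⟩ : ∃ k', k = k' + 1 := ⟨k - 1, by omega⟩
          refine step (UB_anti α b) he (ih b _ _ ?_ ?_) (ih b P _ hs' h)
          · rw [insert_union, ← union_insert]
            exact hs
          · rw [rk_insert α hl]
            omega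
      · cases b with
        | zero =>
          refine loop_acyclic he ?_
          intro F ω _
          rw [UB_insert]
          rintro v ⟨i, -⟩
          exact i.elim0
        | succ b =>
          rw [bridge_vanish α he hbr]
          refine ih b _ _ ?_ ?_
          · rw [insert_union, ← union_insert]
            exact hs
          · rw [rk_insert α hl]
            omega

/-- non-vanishing in the critical degree -/
def NV (b : ℕ) (P Q : Finset ι) : Prop :=
  ∃ k, k + b + rk α P = Module.finrank ℚ X ∧ ¬ Vanish (UB α b) Q P k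

theorem NV_base {P : Finset ι} (hP : NN α P = ⊤) : NV α 0 P ∅ := by
  refine ⟨0, ?_, ?_⟩
  · unfold rk
    rw [hP, finrank_top]
    omega
  · intro hv
    have hne : (AlternatingMap.constOfIsEmpty ℚ X (Fin 0) (1 : ℚ)) ≠ 0 := by
      intro h
      have := congrArg (fun ω : X [⋀^Fin 0]→ₗ[ℚ] ℚ => ω (fun i => i.elim0)) h
      simp at this
    have hch : IsChain (UB α 0) ∅ P 0 (fun F => if F = ∅ then
        AlternatingMap.constOfIsEmpty ℚ X (Fin 0) (1 : ℚ) else 0) := by
      constructor
      · intro F
        rw [mem_UB]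
        rintro v ⟨i, -⟩
        exact i.elim0
      · intro F hF
        dsimp only at hF
        split_ifs at hF with h
        · exact ⟨by simp [h], by simp [h]⟩
        · exact absurd rfl hF
    obtain ⟨y, -, hdy⟩ := hv _ hch (by
      funext F
      unfold dd
      simp)
    have := congrFun hdy ∅
    rw [if_pos rfl] at this
    apply hne
    rw [← this]
    unfold dd
    simp

theorem NV_bridge {b : ℕ} {P Q : Finset ι} {e : ι} (he : e ∉ Q) (hbr : α e ∉ NN α (P ∪ Q))
    (h : NV α b (insert e P) Q) : NV α (b + 1) P (insert e Q) := by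
  obtain ⟨k, hk, hn⟩ := h
  have hl : α e ∉ NN α P := fun h => hbr (NN_mono α subset_union_left h)
  rw [rk_insert α hl] at hk
  refine ⟨k, by omega, ?_⟩
  rw [bridge_vanish α he hbr]
  exact hn

theorem NV_add {b : ℕ} {P Q : Finset ι} {e : ι} (he : e ∉ Q) (hl : α e ∉ NN α P)
    (h : NV α b P Q) : NV α b P (insert e Q) := by
  obtain ⟨k, hk, hn⟩ := h
  refine ⟨k, hk, ?_⟩
  intro hv
  apply hn
  intro c hc hd
  have hchain : IsChain (UB α b) (insert e Q) P k (glue e c 0) := by
    refine glue_chain' hc (fun F => (UB α b _).zero_mem) (fun F hF => absurd rfl hF)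
  obtain ⟨y, hy, hdy⟩ := hv _ hchain (by
    rw [dd_glue he]
    funext F
    unfold glue
    rw [hd, dd_zero]
    simp)
  rw [← glue_parts e y, dd_glue he] at hdy
  have hy0 := part0_chain hy
  have hy1 := part1_chain hy
  have hsupp : ∀ F, e ∈ F → dd Q (part0 e y) F + part1 e y F = 0 ∧ c F = 0
      ∧ dd Q (part1 e y) F = 0 := by
    intro F heF
    refine ⟨?_, ?_, ?_⟩
    · have h1 : dd Q (part0 e y) F = 0 := by
        by_contra hne
        exact he ((dd_supp hy0 hne).1 heF)
      rw [h1]
      simp [part1, heF]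
    · by_contra hne
      exact he ((hc.2 F hne).1 heF)
    · by_contra hne
      exact he ((dd_supp hy1 hne).1 heF)
  have hA : ∀ F, dd Q (part0 e y) F + part1 e y F = c F := by
    intro F
    by_cases heF : e ∈ F
    · rw [(hsupp F heF).1, (hsupp F heF).2.1]
    · have h1 := congrFun hdy F
      simp only [glue, if_neg heF] at h1
      exact h1
  have hB : dd Q (part1 e y) = 0 := by
    funext F
    by_cases heF : e ∈ F
    · exact (hsupp F heF).2.2
    · have h1 := congrFun hdy (insert e F)
      simp only [glue, if_pos (mem_insert_self e F), erase_insert heF, Pi.zero_apply,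
        smul_zero] at h1
      have h3 := congrArg (fun v => sgn e (insert e F) • v) h1
      simp only [smul_zero, smul_smul, sgn_sq, one_smul] at h3
      simpa using h3
  obtain ⟨x1, hx1, hdx1⟩ := vanish_above α b Q (insert e P) k (by
    rw [rk_insert α hl]
    omega) _ hy1 hB
  refine ⟨part0 e y + x1, hy0.add (hx1.mono (UB_anti α b) (subset_insert _ _)), ?_⟩
  rw [dd_add, hdx1]
  funext F
  exact hA F

theorem NV_contract {b : ℕ} {P Q : Finset ι} {e : ι} (he : e ∉ Q) (hl : α e ∉ NN α P)
    (hs : NN α (P ∪ Q) = ⊤) (h : NV α b (insert e P) Q) : NV α b P (insert e Q) := by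
  obtain ⟨k, hk, hn⟩ := h
  rw [rk_insert α hl] at hk
  refine ⟨k + 1, by omega, ?_⟩
  intro hv
  apply hn
  intro c1 hc1 hd1
  have hc1' : IsChain (UB α b) Q P k c1 := hc1.mono (UB_anti α b) (subset_insert _ _)
  obtain ⟨x0, hx0, hdx0⟩ := vanish_below α Q b P k hs (by omega) c1 hc1' hd1
  have hchain : IsChain (UB α b) (insert e Q) P (k + 1) (glue e (-x0) c1) :=
    glue_chain hx0.neg hc1
  obtain ⟨y, hy, hdy⟩ := hv _ hchain (by
    rw [dd_glue he]
    funext F
    unfold glue
    rw [dd_neg, hdx0, hd1]
    simp)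
  rw [← glue_parts e y, dd_glue he] at hdy
  have hy1 := part1_chain hy
  refine ⟨- part1 e y, hy1.neg, ?_⟩
  rw [dd_neg]
  funext F
  by_cases heF : e ∈ F
  · have h1 : dd Q (part1 e y) F = 0 := by
      by_contra hne
      exact he ((dd_supp hy1 hne).1 heF)
    have h2 : c1 F = 0 := by
      by_contra hne
      exact he ((hc1.2 F hne).1 heF)
    rw [Pi.neg_apply, h1, h2, neg_zero]
  · have h1 := congrFun hdy (insert e F)
    simp only [glue, if_pos (mem_insert_self e F), erase_insert heF] at h1
    have h3 := congrArg (fun v => sgn e (insert e F) • v) h1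
    simp only [smul_smul, sgn_sq, one_smul] at h3
    exact h3

end Pool.Agent.X175.CSH
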