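import Mathlib
import Pool.Agent.X175.CSH.NV
import Pool.Agent.X175.CSH.Defs

open Finset

namespace Pool.Agent.X175.CSH

/-! ### from rational to integral coefficients -/

variable {n : ℕ}

theorem vanish_rat (G : SimpleGraph (Fin n)) (k : ℕ) (hv : Vanish (UW ℤ) (edges G) ∅ k) :
    Vanish (UW ℚ) (edges G) ∅ k := by
  classical
  intro c hc hd
  set N : ℕ := ∏ t : Finset (Edge n) × Equiv.Perm (Fin n), (c t.1 t.2).den with hN
  have hN0 : (N : ℚ) ≠ 0 := by
    have : N ≠ 0 := Finset.prod_ne_zero_iff.2 fun t _ => (c t.1 t.2).den_nz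
    exact_mod_cast this
  have hm : ∀ F g, ∃ m : ℤ, (N : ℚ) * c F g = m := by
    intro F g
    obtain ⟨j, hj⟩ : (c F g).den ∣ N :=
      Finset.dvd_prod_of_mem (fun t : Finset (Edge n) × Equiv.Perm (Fin n) => (c t.1 t.2).den)
        (Finset.mem_univ (F, g))
    refine ⟨j * (c F g).num, ?_⟩
    rw [hj]
    push_cast
    rw [← Rat.mul_den_eq_num (c F g)]
    ring
  choose m hm using hm
  have hm0 : ∀ F, m F = 0 ↔ c F = 0 := by
    intro F
    constructor
    · intro h
      funext g
      have h1 := hm F g
      rw [h] at h1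
      simp only [Pi.zero_apply, Int.cast_zero, mul_eq_zero] at h1
      rcases h1 with h1 | h1
      · exact absurd h1 hN0
      · exact h1
    · intro h
      funext g
      have h1 := hm F g
      rw [h] at h1
      simp only [Pi.zero_apply, mul_zero] at h1
      exact_mod_cast h1.symm
  have hmc : IsChain (UW ℤ) (edges G) ∅ k m := by
    constructor
    · intro F g s hs
      have h1 := hc.1 F g s hs
      have h2 := hm F (g * s)
      rw [h1, hm F g] at h2
      exact_mod_cast h2.symm
    · intro F hF
      exact hc.2 F (fun h => hF ((hm0 F).2 h))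
  have hmd : dd (edges G) m = 0 := by
    funext F g
    have h1 := congrFun (congrFun hd F) g
    have h2 : ((dd (edges G) m F g : ℤ) : ℚ) = N * dd (edges G) c F g := by
      unfold dd
      simp only [Finset.sum_apply, Int.cast_sum, Finset.mul_sum]
      refine Finset.sum_congr rfl fun e _ => ?_
      change ((sgn e F • m (insert e F) g : ℤ) : ℚ) = N * (sgn e F • c (insert e F) g)
      rw [smul_eq_mul, zsmul_eq_mul]
      push_cast
      rw [← hm]
      ring
    rw [h1] at h2
    simp only [Pi.zero_apply, mul_zero] at h2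
    exact_mod_cast h2
  obtain ⟨y, hy, hdy⟩ := hv m hmc hmd
  refine ⟨fun F g => (N : ℚ)⁻¹ * y F g, ⟨?_, ?_⟩, ?_⟩
  · intro F g s hs
    dsimp only
    rw [hy.1 F g s hs]
  · intro F hF
    refine hy.2 F ?_
    intro h
    apply hF
    funext g
    simp [h]
  · funext F g
    have h1 := congrFun (congrFun hdy F) g
    have h2 := hm F g
    rw [← h1] at h2
    have h3 : dd (edges G) (fun F g => (N : ℚ)⁻¹ * (y F g : ℚ)) F g
        = (N : ℚ)⁻¹ * ((dd (edges G) y F g : ℤ) : ℚ) := by
      unfold dd
      simp only [Finset.sum_apply, Int.cast_sum, Finset.mul_sum]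
      refine Finset.sum_congr rfl fun e _ => ?_
      change sgn e F • ((N : ℚ)⁻¹ * (y (insert e F) g : ℚ))
        = (N : ℚ)⁻¹ * ((sgn e F • y (insert e F) g : ℤ) : ℚ)
      rw [zsmul_eq_mul, smul_eq_mul]
      push_cast
      ring
    rw [h3, ← h2]
    field_simp

/-! ### the representation -/

/-- vectors with coordinate sum zero -/
def X0 (n : ℕ) : Submodule ℚ (Fin n → ℚ) where
  carrier := {x | ∑ v, x v = 0}
  zero_mem' := by simp
  add_mem' := by
    intro x y hx hy
    simp only [Set.mem_ofPred_eq, Pi.add_apply, sum_add_distrib] at *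
    rw [hx, hy, add_zero]
  smul_mem' := by
    intro c x hx
    simp only [Set.mem_ofPred_eq, Pi.smul_apply, smul_eq_mul, ← mul_sum] at *
    rw [hx, mul_zero]

/-- `e_u - e_v` -/
def D (u v : Fin n) : X0 n := ⟨Pi.single u 1 - Pi.single v 1, by
  change ∑ w, (Pi.single u (1 : ℚ) - Pi.single v 1 : Fin n → ℚ) w = 0
  simp [sum_sub_distrib]⟩

lemma D_apply (u v w : Fin n) : (D u v : Fin n → ℚ) w = (if w = u then 1 else 0) - (if w = v then 1 else 0) := by
  change (Pi.single u (1 : ℚ) - Pi.single v 1 : Fin n → ℚ) w = _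
  simp [Pi.single_apply]

/-- the vector of an edge -/
def al (e : Edge n) : X0 n := D (ofLex e).1 (ofLex e).2

/-- the action of the symmetric group -/
def act (g : Equiv.Perm (Fin n)) : X0 n →ₗ[ℚ] X0 n where
  toFun x := ⟨fun v => (x : Fin n → ℚ) (g⁻¹ v), by
    change ∑ v, (x : Fin n → ℚ) (g⁻¹ v) = 0
    rw [Equiv.sum_comp g⁻¹ (x : Fin n → ℚ)]
    exact x.2⟩
  map_add' := fun _ _ => rfl
  map_smul' := fun _ _ => rfl

lemma act_apply (g : Equiv.Perm (Fin n)) (x : X0 n) (v : Fin n) :
    (act g x : Fin n → ℚ) v = (x : Fin n → ℚ) (g⁻¹ v) := rfl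

lemma act_mul (g h : Equiv.Perm (Fin n)) (x : X0 n) : act (g * h) x = act g (act h x) := by
  ext v
  simp only [act_apply, mul_inv_rev, Equiv.Perm.mul_apply]

lemma act_one (x : X0 n) : act 1 x = x := by
  ext v
  simp [act_apply]

lemma D_mem {P : Finset (Edge n)} {u v : Fin n} (h : comp P u v) : D u v ∈ NN al P := by
  have h' : Relation.EqvGen (fun a b => ∃ e ∈ P, (ofLex e).1 = a ∧ (ofLex e).2 = b) u v := h
  induction h' with
  | rel x y hxy =>
    obtain ⟨e, he, rfl, rfl⟩ := hxy
    exact Submodule.subset_span ⟨e, he, rfl⟩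
  | refl x =>
    have : D x x = 0 := by
      ext w
      simp [D_apply]
    rw [this]
    exact Submodule.zero_mem _
  | symm x y hxy ih =>
    have : D y x = - D x y := by
      ext w
      simp [D_apply]
    rw [this]
    exact Submodule.neg_mem _ (ih hxy)
  | trans x y z h1 h2 ih1 ih2 =>
    have : D x z = D x y + D y z := by
      ext w
      simp [D_apply]
    rw [this]
    exact Submodule.add_mem _ (ih1 h1) (ih2 h2)

lemma act_sub_mem {P : Finset (Edge n)} {s : Equiv.Perm (Fin n)} (hs : s ∈ young P) (x : X0 n) :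
    act s x - x ∈ NN al P := by
  have h : act s x - x = ∑ v, (x : Fin n → ℚ) v • D (s v) v := by
    ext w
    have h1 : ((∑ v, (x : Fin n → ℚ) v • D (s v) v : X0 n) : Fin n → ℚ) w
        = ∑ v, (x : Fin n → ℚ) v * ((if w = s v then 1 else 0) - (if w = v then 1 else 0)) := by
      rw [Submodule.coe_sum, Finset.sum_apply]
      refine Finset.sum_congr rfl fun v _ => ?_
      rw [Submodule.coe_smul, Pi.smul_apply, D_apply, smul_eq_mul]
    rw [h1]
    simp only [mul_sub, sum_sub_distrib, mul_ite, mul_one, mul_zero]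
    rw [Submodule.coe_sub, Pi.sub_apply, act_apply]
    congr 1
    · rw [Finset.sum_eq_single (s⁻¹ w)]
      · simp
      · intro b _ hb
        rw [if_neg]
        rintro rfl
        simp at hb
      · simp
    · simp
  rw [h]
  exact Submodule.sum_mem _ fun v _ => Submodule.smul_mem _ _ (D_mem (hs v))

/-- forms -/
abbrev Forms (n b : ℕ) := (X0 n) [⋀^Fin b]→ₗ[ℚ] ℚ

/-- the action on forms -/
def fact (b : ℕ) (g : Equiv.Perm (Fin n)) (ω : Forms n b) : Forms n b :=
  ω.compLinearMap (act g⁻¹)

lemma fact_apply (b : ℕ) (g : Equiv.Perm (Fin n)) (ω : Forms n b) (v : Fin b → X0 n) :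
    fact b g ω v = ω (fun i => act g⁻¹ (v i)) := rfl

lemma fact_mul (b : ℕ) (g h : Equiv.Perm (Fin n)) (ω : Forms n b) :
    fact b (g * h) ω = fact b g (fact b h ω) := by
  ext v
  simp only [fact_apply, mul_inv_rev, act_mul]

lemma fact_one (b : ℕ) (ω : Forms n b) : fact b 1 ω = ω := by
  ext v
  simp only [fact_apply, inv_one, act_one]

lemma fact_add (b : ℕ) (g : Equiv.Perm (Fin n)) (ω ω' : Forms n b) :
    fact b g (ω + ω') = fact b g ω + fact b g ω' := rfl

lemma fact_smul (b : ℕ) (g : Equiv.Perm (Fin n)) (c : ℚ) (ω : Forms n b) :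
    fact b g (c • ω) = c • fact b g ω := rfl

/-- the action as a linear map -/
def factL (b : ℕ) (g : Equiv.Perm (Fin n)) : Forms n b →ₗ[ℚ] Forms n b where
  toFun := fact b g
  map_add' := fact_add b g
  map_smul' := fact_smul b g

lemma inv_of_mem {b : ℕ} {P : Finset (Edge n)} {ω : Forms n b} (h : ω ∈ UB al b P)
    {s : Equiv.Perm (Fin n)} (hs : s ∈ young P) : fact b s ω = ω := by
  ext v
  rw [fact_apply]
  exact congr_mod h fun i => act_sub_mem (inv_mem hs) (v i)

lemma zero_of_curry {b : ℕ} {X : Type*} [AddCommGroup X] [Module ℚ X]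
    {ω : X [⋀^Fin (b + 1)]→ₗ[ℚ] ℚ} {x : X} (hx : ω.curryLeft x = 0)
    (u : Fin (b + 1) → X) (i : Fin (b + 1)) (hu : u i = x) : ω u = 0 := by
  have h0 : ω ∈ ann (b + 1) (⊥ : Submodule ℚ X) := by
    rintro v ⟨j, hj⟩
    exact ω.map_coord_zero j ((Submodule.mem_bot ℚ).1 hj)
  exact ker_curry h0 x hx u ⟨i, by
    rw [hu]
    exact Submodule.mem_sup_right (Submodule.mem_span_singleton_self x)⟩

lemma mem_of_inv {b : ℕ} {P : Finset (Edge n)} {ω : Forms n b}
    (h : ∀ s ∈ young P, fact b s ω = ω) : ω ∈ UB al b P := by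
  rw [mem_UB]
  cases b with
  | zero =>
    rintro v ⟨i, -⟩
    exact i.elim0
  | succ b =>
    have h0 : ω ∈ ann (b + 1) (⊥ : Submodule ℚ (X0 n)) := by
      rintro v ⟨j, hj⟩
      exact ω.map_coord_zero j ((Submodule.mem_bot ℚ).1 hj)
    have h1 : ∀ e ∈ P, ω.curryLeft (al e) = 0 := by
      intro e he
      set τ := Equiv.swap (ofLex e).1 (ofLex e).2 with hτ
      have hτy : τ ∈ young P := by
        intro v
        have hr : comp P (ofLex e).1 (ofLex e).2 :=
          Relation.EqvGen.rel _ _ ⟨e, he, rfl, rfl⟩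
        by_cases h1 : v = (ofLex e).1
        · rw [h1, hτ, Equiv.swap_apply_left]
          exact (comp _).symm hr
        · by_cases h2 : v = (ofLex e).2
          · rw [h2, hτ, Equiv.swap_apply_right]
            exact hr
          · rw [hτ, Equiv.swap_apply_of_ne_of_ne h1 h2]
      have hτinv : τ⁻¹ = τ := Equiv.swap_inv _ _
      have hneg : act τ⁻¹ (al e) = - al e := by
        ext w
        rw [act_apply, hτinv, hτinv]
        unfold al
        rw [Submodule.coe_neg, Pi.neg_apply, D_apply, D_apply, hτ]
        have e1 : (Equiv.swap (ofLex e).1 (ofLex e).2 w = (ofLex e).1) ↔ w = (ofLex e).2 := by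
          constructor
          · intro h
            have := congrArg (Equiv.swap (ofLex e).1 (ofLex e).2) h
            simpa using this
          · rintro rfl
            simp
        have e2 : (Equiv.swap (ofLex e).1 (ofLex e).2 w = (ofLex e).2) ↔ w = (ofLex e).1 := by
          constructor
          · intro h
            have := congrArg (Equiv.swap (ofLex e).1 (ofLex e).2) h
            simpa using this
          · rintro rfl
            simp
        simp only [e1, e2]
        ring
      have hdiff : ∀ x : X0 n, act τ⁻¹ x - x ∈ (⊥ ⊔ Submodule.span ℚ {al e} : Submodule ℚ (X0 n)) := by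
        intro x
        refine Submodule.mem_sup_right (Submodule.mem_span_singleton.2
          ⟨(x : Fin n → ℚ) (ofLex e).2 - (x : Fin n → ℚ) (ofLex e).1, ?_⟩)
        ext w
        rw [Submodule.coe_sub, Pi.sub_apply, act_apply, hτinv, hτinv, Submodule.coe_smul,
          Pi.smul_apply]
        unfold al
        rw [D_apply, smul_eq_mul, hτ]
        by_cases hne : (ofLex e).1 = (ofLex e).2
        · rw [hne]
          simp
        · by_cases h1 : w = (ofLex e).1
          · subst h1
            simp [hne]
          · by_cases h2 : w = (ofLex e).2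
            · subst h2
              simp [h1]
            · rw [Equiv.swap_apply_of_ne_of_ne h1 h2]
              simp [h1, h2]
      have hθ := curry_mem h0 (al e)
      ext v
      have h2 : ω (Matrix.vecCons (al e) v)
          = ω (fun i => act τ⁻¹ (Matrix.vecCons (al e) v i)) := by
        have := congrArg (fun f : Forms n (b + 1) => f (Matrix.vecCons (al e) v)) (h τ hτy)
        exact this.symm
      have h3 : (fun i => act τ⁻¹ (Matrix.vecCons (al e) v i))
          = Matrix.vecCons (- al e) (fun i => act τ⁻¹ (v i)) := by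
        funext i
        refine Fin.cases ?_ (fun j => ?_) i
        · simp [hneg]
        · simp
      rw [h3] at h2
      have h4 : ω (Matrix.vecCons (- al e) (fun i => act τ⁻¹ (v i)))
          = - ω.curryLeft (al e) v := by
        rw [← AlternatingMap.curryLeft_apply_apply, map_neg, AlternatingMap.neg_apply]
        congr 1
        exact congr_mod hθ fun i => hdiff (v i)
      rw [h4, ← AlternatingMap.curryLeft_apply_apply] at h2
      have : ω.curryLeft (al e) v = 0 := by linarith
      simpa using this
    have h2 : NN al P ≤ LinearMap.ker ω.curryLeft := by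
      unfold NN
      rw [Submodule.span_le]
      rintro x ⟨e, he, rfl⟩
      exact h1 e he
    rintro v ⟨i, hi⟩
    exact zero_of_curry (h2 hi) v i rfl

instance finiteForms (b : ℕ) : Module.Finite ℚ (Forms n b) := by
  have hinj : Function.Injective
      (AlternatingMap.toMultilinearMapLM (R := ℚ) (S := ℚ) (M := X0 n) (N := ℚ) (ι := Fin b)) := by
    intro x y hxy
    exact AlternatingMap.coe_multilinearMap_injective hxy
  exact Module.Finite.of_injective _ hinj

theorem transfer_vanish {b : ℕ} (Q : Finset (Edge n)) (k : ℕ) (hv : Vanish (UW ℚ) Q ∅ k) :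
    Vanish (UB (al (n := n)) b) Q ∅ k := by
  intro c hc hd
  set B := Module.finBasis ℚ (Forms n b) with hB
  -- components of the chain
  have hΦ : ∀ i, ∃ y, IsChain (UW ℚ) Q ∅ (k + 1) y ∧
      dd Q y = fun F g => B.repr (fact b g (c F)) i := by
    intro i
    let f : Forms n b →+ (Equiv.Perm (Fin n) → ℚ) :=
      { toFun := fun ω g => B.repr (fact b g ω) i
        map_zero' := by
          funext g
          have : fact b g (0 : Forms n b) = 0 := rfl
          simp [this]
        map_add' := by
          intro x y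
          funext g
          simp [fact_add] }
    refine hv (fun F => f (c F)) ⟨?_, ?_⟩ ?_
    · intro F g s hs
      change B.repr (fact b (g * s) (c F)) i = B.repr (fact b g (c F)) i
      rw [fact_mul, inv_of_mem (hc.1 F) hs]
    · intro F hF
      refine hc.2 F ?_
      intro h
      apply hF
      dsimp only
      rw [h, map_zero]
    · rw [dd_map, hd]
      funext F
      simp
  choose y hy hdy using hΦ
  -- the retraction
  let Ψ : (Fin (Module.finrank ℚ (Forms n b)) → Equiv.Perm (Fin n) → ℚ) →+ Forms n b :=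
    { toFun := fun φ => ((n.factorial : ℚ))⁻¹ • ∑ g : Equiv.Perm (Fin n), ∑ i, φ i g • fact b g⁻¹ (B i)
      map_zero' := by simp
      map_add' := by
        intro x z
        simp only [Pi.add_apply, add_smul, sum_add_distrib, smul_add] }
  have hΨ : ∀ φ, Ψ φ = ((n.factorial : ℚ))⁻¹ •
      ∑ g : Equiv.Perm (Fin n), ∑ i, φ i g • fact b g⁻¹ (B i) := fun _ => rfl
  refine ⟨fun F => Ψ (fun i => y i F), ⟨?_, ?_⟩, ?_⟩
  · intro F
    refine mem_of_inv fun s hs => ?_
    have hlin : fact b s (Ψ (fun i => y i F)) = ((n.factorial : ℚ))⁻¹ •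
        ∑ g : Equiv.Perm (Fin n), ∑ i, y i F g • fact b (s * g⁻¹) (B i) := by
      change factL b s (Ψ (fun i => y i F)) = _
      rw [hΨ]
      simp only [map_smul, map_sum]
      congr 1
    change fact b s (Ψ (fun i => y i F)) = Ψ (fun i => y i F)
    rw [hlin, hΨ]
    congr 1
    rw [← Equiv.sum_comp (Equiv.mulRight s)]
    refine Finset.sum_congr rfl fun g _ => Finset.sum_congr rfl fun i _ => ?_
    rw [Equiv.coe_mulRight, (hy i).1 F g s hs, mul_inv_rev, mul_inv_cancel_left]
  · intro F hF
    by_contra hcon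
    apply hF
    have : (fun i => y i F) = 0 := by
      funext i
      by_contra hne
      exact hcon ((hy i).2 F hne)
    dsimp only
    rw [this, map_zero]
  · have h1 : dd Q (fun F => Ψ (fun i => y i F)) = fun F => Ψ (dd Q (fun F i => y i F) F) :=
      dd_map Ψ Q (fun F i => y i F)
    rw [h1]
    funext F
    have h2 : dd Q (fun F i => y i F) F = fun i g => B.repr (fact b g (c F)) i := by
      funext i
      have := congrFun (hdy i) F
      rw [← this]
      unfold dd
      simp only [Finset.sum_apply, Pi.smul_apply]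
    rw [h2, hΨ]
    have h3 : ∀ g : Equiv.Perm (Fin n), ∑ i, B.repr (fact b g (c F)) i • fact b g⁻¹ (B i) = c F := by
      intro g
      have h4 : ∑ i, B.repr (fact b g (c F)) i • fact b g⁻¹ (B i)
          = factL b g⁻¹ (∑ i, B.repr (fact b g (c F)) i • B i) := by
        simp only [map_sum, map_smul]
        rfl
      rw [h4, B.sum_repr]
      change fact b g⁻¹ (fact b g (c F)) = c F
      rw [← fact_mul, inv_mul_cancel, fact_one]
    simp only [h3]
    rw [Finset.sum_const, Finset.card_univ, Fintype.card_perm, Fintype.card_fin,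
      ← Nat.cast_smul_eq_nsmul ℚ, smul_smul, inv_mul_cancel₀, one_smul]
    exact_mod_cast (Nat.factorial_pos n).ne'

end Pool.Agent.X175.CSH
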