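import Mathlib
import Pool.Agent.X175.CSH.Transfer

open Finset

namespace Pool.Agent.X175.CSH

variable {n : ℕ}

lemma notMem_of_not_comp {P : Finset (Edge n)} {e : Edge n}
    (h : ¬ comp P (ofLex e).1 (ofLex e).2) : al e ∉ NN al P := by
  classical
  set u := (ofLex e).1 with hu
  set v := (ofLex e).2 with hv
  -- the functional
  let l : X0 n →ₗ[ℚ] ℚ :=
    { toFun := fun x => ∑ w, if comp P u w then (x : Fin n → ℚ) w else 0
      map_add' := by
        intro x y
        rw [← sum_add_distrib]
        refine Finset.sum_congr rfl fun w _ => ?_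
        split_ifs <;> simp
      map_smul' := by
        intro c x
        rw [RingHom.id_apply, smul_eq_mul, mul_sum]
        refine Finset.sum_congr rfl fun w _ => ?_
        split_ifs <;> simp }
  have hl : ∀ a b : Fin n, l (D a b) = (if comp P u a then 1 else 0) - (if comp P u b then 1 else 0) := by
    intro a b
    change (∑ w, if comp P u w then (D a b : Fin n → ℚ) w else 0) = _
    have : ∀ w, (if comp P u w then (D a b : Fin n → ℚ) w else 0)
        = (if w = a then (if comp P u a then (1 : ℚ) else 0) else 0)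
          - (if w = b then (if comp P u b then (1 : ℚ) else 0) else 0) := by
      intro w
      rw [D_apply]
      by_cases h1 : w = a
      · subst h1
        by_cases h2 : w = b
        · subst h2
          simp
        · by_cases h3 : comp P u w <;> simp [h2, h3]
      · by_cases h2 : w = b
        · subst h2
          by_cases h3 : comp P u w <;> simp [h1, h3]
        · simp [h1, h2]
    simp only [this, sum_sub_distrib, Finset.sum_ite_eq', Finset.mem_univ, if_true]
  intro hmem
  have hker : NN al P ≤ LinearMap.ker l := by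
    unfold NN
    rw [Submodule.span_le]
    rintro x ⟨f, hf, rfl⟩
    change l (al f) = 0
    unfold al
    rw [hl]
    have hr : comp P (ofLex f).1 (ofLex f).2 := Relation.EqvGen.rel _ _ ⟨f, hf, rfl, rfl⟩
    have : comp P u (ofLex f).1 ↔ comp P u (ofLex f).2 :=
      ⟨fun h => (comp P).trans h hr, fun h => (comp P).trans h ((comp P).symm hr)⟩
    by_cases h1 : comp P u (ofLex f).1
    · rw [if_pos h1, if_pos (this.1 h1), sub_self]
    · rw [if_neg h1, if_neg (fun h => h1 (this.2 h)), sub_self]
  have h1 : l (al e) = 0 := hker hmem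
  have h2 : l (al e) = 1 := by
    change l (D u v) = 1
    rw [hl, if_pos ((comp P).refl u), if_neg h, sub_zero]
  rw [h1] at h2
  exact absurd h2 (by norm_num)

lemma NN_top {P : Finset (Edge n)} (h : ∀ a b, comp P a b) : NN al P = ⊤ := by
  rw [eq_top_iff]
  rintro x -
  by_cases hn : Nonempty (Fin n)
  · obtain ⟨r⟩ := hn
    have hx : x = ∑ v, (x : Fin n → ℚ) v • D v r := by
      ext w
      rw [Submodule.coe_sum, Finset.sum_apply]
      have h1 : ∀ v, ((((x : Fin n → ℚ) v • D v r : X0 n)) : Fin n → ℚ) w
          = (if w = v then (x : Fin n → ℚ) v else 0) - (x : Fin n → ℚ) v * (if w = r then 1 else 0) := by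
        intro v
        rw [Submodule.coe_smul, Pi.smul_apply, D_apply, smul_eq_mul]
        by_cases h2 : w = v <;> simp [h2, mul_sub]
      simp only [h1, sum_sub_distrib, ← sum_mul]
      have hs : ∑ v, (x : Fin n → ℚ) v = 0 := x.2
      rw [hs]
      simp
    rw [hx]
    exact Submodule.sum_mem _ fun v _ => Submodule.smul_mem _ _ (D_mem (h v r))
  · have : x = 0 := by
      ext w
      exact absurd ⟨w⟩ hn
    rw [this]
    exact Submodule.zero_mem _

lemma finrank_X0 (hn : 1 ≤ n) : Module.finrank ℚ (X0 n) + 1 = n := by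
  let l : (Fin n → ℚ) →ₗ[ℚ] ℚ :=
    { toFun := fun x => ∑ v, x v
      map_add' := by intro x y; simp [sum_add_distrib]
      map_smul' := by intro c x; simp [mul_sum] }
  have hk : LinearMap.ker l = X0 n := by
    ext x
    rfl
  have h1 := LinearMap.finrank_range_add_finrank_ker l
  have h2 : LinearMap.range l = ⊤ := by
    rw [LinearMap.range_eq_top]
    intro c
    refine ⟨Pi.single ⟨0, by omega⟩ c, ?_⟩
    change ∑ v, (Pi.single (⟨0, by omega⟩ : Fin n) c : Fin n → ℚ) v = c
    simp
  rw [h2, hk, finrank_top, Module.finrank_self, Module.finrank_fintype_fun_eq_card,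
    Fintype.card_fin] at h1
  omega

/-- the pair of an edge -/
def ed (u v : Fin n) : Edge n := toLex (min u v, max u v)

lemma ed_cases (u v : Fin n) : ((ofLex (ed u v)).1 = u ∧ (ofLex (ed u v)).2 = v) ∨
    ((ofLex (ed u v)).1 = v ∧ (ofLex (ed u v)).2 = u) := by
  unfold ed
  rcases le_total u v with h | h
  · left
    simp [h]
  · right
    simp [h]

open Classical in
lemma mem_edges {G : SimpleGraph (Fin n)} {e : Edge n} :
    e ∈ edges G ↔ (ofLex e).1 < (ofLex e).2 ∧ G.Adj (ofLex e).1 (ofLex e).2 := by
  unfold edges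
  rw [Finset.mem_filter]
  exact ⟨fun h => h.2, fun h => ⟨Finset.mem_univ _, h⟩⟩

lemma ed_mem {G : SimpleGraph (Fin n)} {u v : Fin n} (h : G.Adj u v) : ed u v ∈ edges G := by
  rw [mem_edges]
  have hne := h.ne
  rcases lt_or_gt_of_ne hne with h1 | h1
  · unfold ed
    simp only [ofLex_toLex, min_eq_left h1.le, max_eq_right h1.le]
    exact ⟨h1, h⟩
  · unfold ed
    simp only [ofLex_toLex, min_eq_right h1.le, max_eq_left h1.le]
    exact ⟨h1, h.symm⟩

lemma comp_ed {P : Finset (Edge n)} {u v : Fin n} (h : ed u v ∈ P) : comp P u v := by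
  have h1 : comp P (ofLex (ed u v)).1 (ofLex (ed u v)).2 :=
    Relation.EqvGen.rel _ _ ⟨_, h, rfl, rfl⟩
  rcases ed_cases u v with ⟨h2, h3⟩ | ⟨h2, h3⟩
  · rwa [h2, h3] at h1
  · rw [h2, h3] at h1
    exact (comp P).symm h1

lemma al_ed {P : Finset (Edge n)} {u v : Fin n} (h : ¬ comp P u v) : al (ed u v) ∉ NN al P := by
  refine notMem_of_not_comp ?_
  rcases ed_cases u v with ⟨h2, h3⟩ | ⟨h2, h3⟩
  · rwa [h2, h3]
  · rw [h2, h3]
    exact fun h1 => h ((comp P).symm h1)

/-- relations containing the generators contain `comp` -/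
lemma comp_le {P : Finset (Edge n)} {R : Fin n → Fin n → Prop} (hR : Equivalence R)
    (h : ∀ e ∈ P, R (ofLex e).1 (ofLex e).2) {a b : Fin n} (hab : comp P a b) : R a b := by
  have hab' : Relation.EqvGen (fun a b => ∃ e ∈ P, (ofLex e).1 = a ∧ (ofLex e).2 = b) a b := hab
  induction hab' with
  | rel x y hxy =>
    obtain ⟨e, he, rfl, rfl⟩ := hxy
    exact h e he
  | refl x => exact hR.refl x
  | symm x y hxy ih => exact hR.symm (ih hxy)
  | trans x y z h1 h2 ih1 ih2 => exact hR.trans (ih1 h1) (ih2 h2)

/-- `S` contains exactly one vertex of each component of `P` -/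
def Trans (S : Finset (Fin n)) (P : Finset (Edge n)) : Prop :=
  (∀ v, ∃ s ∈ S, comp P v s) ∧ ∀ s ∈ S, ∀ t ∈ S, comp P s t → s = t

/-- edges of `G` inside `S` -/
noncomputable def ES (G : SimpleGraph (Fin n)) (S : Finset (Fin n)) : Finset (Edge n) :=
  (edges G).filter (fun e => (ofLex e).1 ∈ S ∧ (ofLex e).2 ∈ S)

lemma comp_insert_iff {P : Finset (Edge n)} {x p : Fin n} {a b : Fin n}
    (h : comp (insert (ed x p) P) a b) :
    comp P a b ∨ (comp P a x ∧ comp P b p) ∨ (comp P a p ∧ comp P b x) := by
  classical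
  -- the relation
  let R : Fin n → Fin n → Prop := fun a b =>
    comp P a b ∨ ((comp P a x ∨ comp P a p) ∧ (comp P b x ∨ comp P b p))
  have hR : Equivalence R := by
    refine ⟨fun a => Or.inl ((comp P).refl a), ?_, ?_⟩
    · rintro a b (h | ⟨h1, h2⟩)
      · exact Or.inl ((comp P).symm h)
      · exact Or.inr ⟨h2, h1⟩
    · rintro a b c (h1 | ⟨h1, h2⟩) (h3 | ⟨h3, h4⟩)
      · exact Or.inl ((comp P).trans h1 h3)
      · refine Or.inr ⟨?_, h4⟩
        rcases h3 with h3 | h3
        · exact Or.inl ((comp P).trans h1 h3)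
        · exact Or.inr ((comp P).trans h1 h3)
      · refine Or.inr ⟨h1, ?_⟩
        rcases h2 with h2 | h2
        · exact Or.inl ((comp P).trans ((comp P).symm h3) h2)
        · exact Or.inr ((comp P).trans ((comp P).symm h3) h2)
      · exact Or.inr ⟨h1, h4⟩
  have hab : R a b := by
    refine comp_le hR ?_ h
    intro e he
    rw [mem_insert] at he
    rcases he with rfl | he
    · right
      rcases ed_cases x p with ⟨h2, h3⟩ | ⟨h2, h3⟩
      · rw [h2, h3]
        exact ⟨Or.inl ((comp P).refl _), Or.inr ((comp P).refl _)⟩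
      · rw [h2, h3]
        exact ⟨Or.inr ((comp P).refl _), Or.inl ((comp P).refl _)⟩
    · exact Or.inl (Relation.EqvGen.rel _ _ ⟨e, he, rfl, rfl⟩)
  rcases hab with h | ⟨h1 | h1, h2 | h2⟩
  · exact Or.inl h
  · exact Or.inl ((comp P).trans h1 ((comp P).symm h2))
  · exact Or.inr (Or.inl ⟨h1, h2⟩)
  · exact Or.inr (Or.inr ⟨h1, h2⟩)
  · exact Or.inl ((comp P).trans h1 ((comp P).symm h2))

/-- merging a vertex of the transversal -/
lemma trans_merge {S : Finset (Fin n)} {P : Finset (Edge n)} {x p u : Fin n} (hp : p ∉ S)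
    (hT : Trans (insert p S) P) (hu : u ∈ S) (hxu : comp P x u) :
    Trans S (insert (ed x p) P) := by
  constructor
  · intro v
    obtain ⟨s, hs, hvs⟩ := hT.1 v
    rw [mem_insert] at hs
    rcases hs with rfl | hs
    · refine ⟨u, hu, ?_⟩
      have h1 : comp (insert (ed x s) P) x s := comp_ed (mem_insert_self _ _)
      exact (comp _).trans ((comp _).trans (comp_mono (subset_insert _ _) hvs) ((comp _).symm h1))
        (comp_mono (subset_insert _ _) hxu)
    · exact ⟨s, hs, comp_mono (subset_insert _ _) hvs⟩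
  · intro s hs t ht hst
    rcases comp_insert_iff hst with h | ⟨h1, h2⟩ | ⟨h1, h2⟩
    · exact hT.2 s (mem_insert_of_mem hs) t (mem_insert_of_mem ht) h
    · have := hT.2 t (mem_insert_of_mem ht) p (mem_insert_self _ _) h2
      exact absurd (this ▸ ht) hp
    · have := hT.2 s (mem_insert_of_mem hs) p (mem_insert_self _ _) h1
      exact absurd (this ▸ hs) hp

lemma NV_mono {b : ℕ} {P Q Q' : Finset (Edge n)} (hQ : Q ⊆ Q')
    (h : ∀ e ∈ Q', ¬ comp P (ofLex e).1 (ofLex e).2) (hN : NV al b P Q) : NV al b P Q' := by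
  have key : ∀ T : Finset (Edge n), T ⊆ Q' → NV al b P (Q ∪ T) := by
    intro T
    induction T using Finset.induction_on with
    | empty =>
      intro _
      rwa [union_empty]
    | insert e T he ih =>
      intro hT
      have h1 := ih ((subset_insert _ _).trans hT)
      by_cases h2 : e ∈ Q ∪ T
      · rwa [union_insert, insert_eq_of_mem h2]
      · rw [union_insert]
        exact NV_add al h2 (notMem_of_not_comp (h e (hT (mem_insert_self _ _)))) h1
  have := key Q' (subset_refl _)
  rwa [union_eq_right.2 hQ] at this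

/-- ears: a path from `x` through the vertices `A` (outside `S`) to `v`, with edge set `E` -/
inductive EarTo (G : SimpleGraph (Fin n)) (S : Finset (Fin n)) (v : Fin n) :
    Fin n → Finset (Fin n) → Finset (Edge n) → Prop
  | nil (x : Fin n) : G.Adj x v → EarTo G S v x ∅ {ed x v}
  | cons (x p : Fin n) (A : Finset (Fin n)) (E : Finset (Edge n)) : G.Adj x p → p ∉ S → p ∉ A →
      EarTo G S v p A E → EarTo G S v x (insert p A) (insert (ed x p) E)

lemma ear_ends {G : SimpleGraph (Fin n)} {S : Finset (Fin n)} {v x : Fin n}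
    {A : Finset (Fin n)} {E : Finset (Edge n)} (h : EarTo G S v x A E) :
    ∀ e ∈ E, ((ofLex e).1 = x ∨ (ofLex e).1 ∈ A ∨ (ofLex e).1 = v) ∧
      ((ofLex e).2 = x ∨ (ofLex e).2 ∈ A ∨ (ofLex e).2 = v) := by
  induction h with
  | nil x hx =>
    intro e he
    rw [mem_singleton] at he
    subst he
    rcases ed_cases x v with ⟨h2, h3⟩ | ⟨h2, h3⟩
    · rw [h2, h3]
      exact ⟨Or.inl rfl, Or.inr (Or.inr rfl)⟩
    · rw [h2, h3]
      exact ⟨Or.inr (Or.inr rfl), Or.inl rfl⟩
  | cons x p A E hxp hp hpA hE ih =>
    intro e he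
    rw [mem_insert] at he
    rcases he with rfl | he
    · rcases ed_cases x p with ⟨h2, h3⟩ | ⟨h2, h3⟩
      · rw [h2, h3]
        exact ⟨Or.inl rfl, Or.inr (Or.inl (mem_insert_self _ _))⟩
      · rw [h2, h3]
        exact ⟨Or.inr (Or.inl (mem_insert_self _ _)), Or.inl rfl⟩
    · obtain ⟨h1, h2⟩ := ih e he
      constructor
      · rcases h1 with h1 | h1 | h1
        · exact Or.inr (Or.inl (h1 ▸ mem_insert_self _ _))
        · exact Or.inr (Or.inl (mem_insert_of_mem h1))
        · exact Or.inr (Or.inr h1)
      · rcases h2 with h1 | h1 | h1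
        · exact Or.inr (Or.inl (h1 ▸ mem_insert_self _ _))
        · exact Or.inr (Or.inl (mem_insert_of_mem h1))
        · exact Or.inr (Or.inr h1)

lemma ear_edges {G : SimpleGraph (Fin n)} {S : Finset (Fin n)} {v x : Fin n}
    {A : Finset (Fin n)} {E : Finset (Edge n)} (h : EarTo G S v x A E) : E ⊆ edges G := by
  induction h with
  | nil x hx =>
    intro e he
    rw [mem_singleton] at he
    rw [he]
    exact ed_mem hx
  | cons x p A E hxp hp hpA hE ih =>
    intro e he
    rw [mem_insert] at he
    rcases he with rfl | he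
    · exact ed_mem hxp
    · exact ih he

lemma ear_out {G : SimpleGraph (Fin n)} {S : Finset (Fin n)} {v x : Fin n}
    {A : Finset (Fin n)} {E : Finset (Edge n)} (h : EarTo G S v x A E) : ∀ a ∈ A, a ∉ S := by
  induction h with
  | nil x hx => simp
  | cons x p A E hxp hp hpA hE ih =>
    intro a ha
    rw [mem_insert] at ha
    rcases ha with rfl | ha
    · exact hp
    · exact ih a ha

lemma ear_comp {G : SimpleGraph (Fin n)} {S : Finset (Fin n)} {v x : Fin n}
    {A : Finset (Fin n)} {E : Finset (Edge n)} (h : EarTo G S v x A E) :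
    comp E x v ∧ ∀ a ∈ A, comp E a v := by
  induction h with
  | nil x hx => exact ⟨comp_ed (by simp), by simp⟩
  | cons x p A E hxp hp hpA hE ih =>
    have h1 : comp (insert (ed x p) E) x p := comp_ed (mem_insert_self _ _)
    have h2 : comp (insert (ed x p) E) p v := comp_mono (subset_insert _ _) ih.1
    refine ⟨(comp _).trans h1 h2, ?_⟩
    intro a ha
    rw [mem_insert] at ha
    rcases ha with rfl | ha
    · exact h2
    · exact comp_mono (subset_insert _ _) (ih.2 a ha)

/-- the main lemma about ears -/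
lemma ear_NV {G : SimpleGraph (Fin n)} {S : Finset (Fin n)} {v : Fin n} {β : ℕ}
    (hT : ∀ P, Trans S P → ∃ b ≤ β, NV al b P (ES G S))
    (hconn : ∀ s ∈ S, ∀ t ∈ S, comp (ES G S) s t) {u : Fin n} (hu : u ∈ S) (hv : v ∈ S)
    (huv : u ≠ v) {x : Fin n} {A : Finset (Fin n)} {E : Finset (Edge n)}
    (h : EarTo G S v x A E) : ∀ P, Trans (S ∪ A) P → comp P x u →
      ∃ b ≤ β, NV al b P (ES G S ∪ E) := by
  induction h with
  | nil x hx =>
    intro P hP hxu
    rw [union_empty] at hP
    obtain ⟨b, hb, hN⟩ := hT P hP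
    refine ⟨b, hb, ?_⟩
    by_cases h2 : ed x v ∈ ES G S
    · rwa [union_singleton, insert_eq_of_mem h2]
    · rw [union_singleton]
      refine NV_add al h2 (al_ed ?_) hN
      intro h3
      exact huv (hP.2 u hu v hv ((comp P).trans ((comp P).symm hxu) h3))
  | cons x p A E hxp hp hpA hE ih =>
    intro P hP hxu
    have hpS : p ∉ S ∪ A := by
      rw [mem_union]
      exact fun h => h.elim hp hpA
    have hP' : Trans (insert p (S ∪ A)) P := by rwa [union_insert] at hP
    have hP2 : Trans (S ∪ A) (insert (ed x p) P) :=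
      trans_merge hpS hP' (mem_union_left _ hu) hxu
    have hpu : comp (insert (ed x p) P) p u :=
      (comp _).trans ((comp _).symm (comp_ed (mem_insert_self _ _)))
        (comp_mono (subset_insert _ _) hxu)
    obtain ⟨b, hb, hN⟩ := ih _ hP2 hpu
    refine ⟨b, hb, ?_⟩
    rw [union_insert]
    have hup : ¬ comp P u p := by
      intro h3
      have := hP'.2 u (mem_insert_of_mem (mem_union_left _ hu)) p (mem_insert_self _ _) h3
      exact hp (this ▸ hu)
    -- vertices of the ear are not related to `u`
    have hrel : ∀ a, (a = p ∨ a ∈ A ∨ a = v) → x ≠ a := by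
      rintro a ha rfl
      have ha' : x ∈ insert p (S ∪ A) := by
        rcases ha with h | h | h
        · rw [h]
          exact mem_insert_self _ _
        · exact mem_insert_of_mem (mem_union_right _ h)
        · rw [h]
          exact mem_insert_of_mem (mem_union_left _ hv)
      have hxu' : x = u := hP'.2 x ha' u (mem_insert_of_mem (mem_union_left _ hu)) hxu
      rcases ha with h | h | h
      · exact hp (h ▸ hxu' ▸ hu)
      · exact ear_out hE x h (hxu' ▸ hu)
      · exact huv (hxu' ▸ h)
    have hnot : ed x p ∉ ES G S ∪ E := by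
      rw [mem_union]
      rintro (h3 | h3)
      · unfold ES at h3
        rw [mem_filter] at h3
        rcases ed_cases x p with ⟨h4, h5⟩ | ⟨h4, h5⟩
        · rw [h4, h5] at h3
          exact hp h3.2.2
        · rw [h4, h5] at h3
          exact hp h3.2.1
      · obtain ⟨h6, h7⟩ := ear_ends hE _ h3
        rcases ed_cases x p with ⟨h4, h5⟩ | ⟨h4, h5⟩
        · rw [h4] at h6
          exact hrel x h6 rfl
        · rw [h5] at h7
          exact hrel x h7 rfl
    refine NV_contract al hnot (al_ed ?_) ?_ hN
    · intro h3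
      exact hup ((comp P).trans ((comp P).symm hxu) h3)
    · refine NN_top ?_
      have hc := ear_comp hE
      have hall : ∀ w, comp (P ∪ (ES G S ∪ E)) w v := by
        intro w
        obtain ⟨s, hs, hws⟩ := hP'.1 w
        have h8 : comp (P ∪ (ES G S ∪ E)) w s := comp_mono subset_union_left hws
        refine (comp _).trans h8 ?_
        rw [mem_insert, mem_union] at hs
        rcases hs with rfl | hs | hs
        · exact comp_mono (subset_union_right.trans subset_union_right) hc.1
        · exact comp_mono (subset_union_left.trans subset_union_right) (hconn s hs v hv)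
        · exact comp_mono (subset_union_right.trans subset_union_right) (hc.2 s hs)
      intro a b
      exact (comp _).trans (hall a) ((comp _).symm (hall b))

end Pool.Agent.X175.CSH
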