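import Mathlib
import Pool.Agent.X175.CSH.Graph

open Finset

namespace Pool.Agent.X175.CSH

variable {n : ℕ}

lemma mem_ES {G : SimpleGraph (Fin n)} {S : Finset (Fin n)} {e : Edge n} :
    e ∈ ES G S ↔ e ∈ edges G ∧ (ofLex e).1 ∈ S ∧ (ofLex e).2 ∈ S := by
  unfold ES
  rw [mem_filter]

lemma ES_mono (G : SimpleGraph (Fin n)) {S T : Finset (Fin n)} (h : S ⊆ T) : ES G S ⊆ ES G T := by
  intro e he
  rw [mem_ES] at *
  exact ⟨he.1, h he.2.1, h he.2.2⟩

/-- edges inside a transversal are not loops -/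
lemma ES_nonloop {G : SimpleGraph (Fin n)} {S : Finset (Fin n)} {P : Finset (Edge n)}
    (hP : Trans S P) : ∀ e ∈ ES G S, ¬ comp P (ofLex e).1 (ofLex e).2 := by
  intro e he h
  rw [mem_ES, mem_edges] at he
  exact he.1.1.ne (hP.2 _ he.2.1 _ he.2.2 h)

/-- the blocks meeting `S` in at least two vertices -/
def bl (G : SimpleGraph (Fin n)) (S : Finset (Fin n)) : Set (Set (Fin n)) :=
  {B | IsBlock G B ∧ ∃ a ∈ S, ∃ b ∈ S, a ≠ b ∧ a ∈ B ∧ b ∈ B}

lemma bl_mono (G : SimpleGraph (Fin n)) {S T : Finset (Fin n)} (h : S ⊆ T) : bl G S ⊆ bl G T := by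
  rintro B ⟨h1, a, ha, b, hb, h2⟩
  exact ⟨h1, a, h ha, b, h hb, h2⟩

/-- the induction statement -/
structure Good (G : SimpleGraph (Fin n)) (S : Finset (Fin n)) : Prop where
  ne : S.Nonempty
  conn : ∀ s ∈ S, ∀ t ∈ S, comp (ES G S) s t
  nv : ∀ P, Trans S P → ∃ b ≤ (bl G S).ncard, NV al b P (ES G S)

lemma good_single (G : SimpleGraph (Fin n)) (r : Fin n) : Good G {r} := by
  refine ⟨⟨r, by simp⟩, ?_, ?_⟩
  · intro s hs t ht
    rw [mem_singleton] at hs ht
    rw [hs, ht]
  · intro P hP
    refine ⟨0, Nat.zero_le _, ?_⟩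
    have hES : ES G {r} = ∅ := by
      rw [eq_empty_iff_forall_notMem]
      intro e he
      rw [mem_ES, mem_edges] at he
      have h1 := he.2.1
      have h2 := he.2.2
      rw [mem_singleton] at h1 h2
      have h3 := he.1.1
      rw [h1, h2] at h3
      exact lt_irrefl _ h3
    rw [hES]
    refine NV_base al (NN_top ?_)
    intro a b
    obtain ⟨s, hs, has⟩ := hP.1 a
    obtain ⟨t, ht, hbt⟩ := hP.1 b
    rw [mem_singleton] at hs ht
    subst hs
    subst ht
    exact (comp P).trans has ((comp P).symm hbt)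

/-- `G` with the vertex `u` isolated -/
def avoid (G : SimpleGraph (Fin n)) (u : Fin n) : SimpleGraph (Fin n) where
  Adj a b := G.Adj a b ∧ a ≠ u ∧ b ≠ u
  symm := ⟨fun _ _ h => ⟨h.1.symm, h.2.2, h.2.1⟩⟩
  loopless := ⟨fun _ h => h.1.ne rfl⟩

lemma exists_ear {G : SimpleGraph (Fin n)} {S : Finset (Fin n)} {u : Fin n} {y w : Fin n}
    (p : (avoid G u).Walk y w) (hp : p.IsPath) (hy : y ∉ S) (hw : w ∈ S) (hyu : y ≠ u) :
    ∃ v ∈ S, v ≠ u ∧ ∃ A E, EarTo G S v y A E ∧ (∀ a ∈ A, a ∈ p.support) ∧ y ∉ A := by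
  induction p with
  | nil => exact absurd hw hy
  | @cons a c d h q ih =>
    rw [SimpleGraph.Walk.cons_isPath_iff] at hp
    by_cases hc : c ∈ S
    · exact ⟨c, hc, h.2.2, ∅, {ed a c}, EarTo.nil a h.1, by simp, by simp⟩
    · obtain ⟨v, hv, hvu, A, E, hE, hA, hcA⟩ := ih hp.1 hc hw h.2.2
      refine ⟨v, hv, hvu, insert c A, insert (ed a c) E, EarTo.cons a c A E h.1 hc hcA hE, ?_, ?_⟩
      · intro x hx
        rw [SimpleGraph.Walk.support_cons]
        rw [mem_insert] at hx
        rcases hx with rfl | hx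
        · exact List.mem_cons_of_mem _ q.start_mem_support
        · exact List.mem_cons_of_mem _ (hA x hx)
      · intro hx
        rw [mem_insert] at hx
        rcases hx with rfl | hx
        · exact hp.2 q.start_mem_support
        · exact hp.2 (hA a hx)

lemma good_ear {G : SimpleGraph (Fin n)} {S : Finset (Fin n)} (hS : Good G S) {u v : Fin n}
    (hu : u ∈ S) (hv : v ∈ S) (huv : v ≠ u) {A : Finset (Fin n)} {E : Finset (Edge n)}
    (hE : EarTo G S v u A E) : Good G (S ∪ A) := by
  have hends := ear_ends hE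
  have hsub : ES G S ∪ E ⊆ ES G (S ∪ A) := by
    refine union_subset (ES_mono G subset_union_left) ?_
    intro e he
    rw [mem_ES]
    obtain ⟨h1, h2⟩ := hends e he
    refine ⟨ear_edges hE he, ?_, ?_⟩
    · rcases h1 with h | h | h
      · exact mem_union_left _ (h ▸ hu)
      · exact mem_union_right _ h
      · exact mem_union_left _ (h ▸ hv)
    · rcases h2 with h | h | h
      · exact mem_union_left _ (h ▸ hu)
      · exact mem_union_right _ h
      · exact mem_union_left _ (h ▸ hv)
  refine ⟨hS.ne.mono subset_union_left, ?_, ?_⟩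
  · have hall : ∀ s ∈ S ∪ A, comp (ES G (S ∪ A)) s v := by
      intro s hs
      rw [mem_union] at hs
      rcases hs with hs | hs
      · exact comp_mono (subset_union_left.trans hsub) (hS.conn s hs v hv)
      · exact comp_mono (subset_union_right.trans hsub) ((ear_comp hE).2 s hs)
    intro s hs t ht
    exact (comp _).trans (hall s hs) ((comp _).symm (hall t ht))
  · intro P hP
    obtain ⟨b, hb, hN⟩ := ear_NV hS.nv hS.conn hu hv (Ne.symm huv) hE P hP ((comp P).refl u)
    refine ⟨b, hb.trans (Set.ncard_le_ncard (bl_mono G subset_union_left) (Set.toFinite _)), ?_⟩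
    exact NV_mono hsub (ES_nonloop hP) hN

lemma induce_reach {G : SimpleGraph (Fin n)} {B : Set (Fin n)} {u : Fin n}
    (h : (G.induce (B \ {u})).Preconnected) {y s : Fin n} (hy : y ∈ B) (hyu : y ≠ u)
    (hs : s ∈ B) (hsu : s ≠ u) : (avoid G u).Reachable y s := by
  have h1 := h ⟨y, hy, hyu⟩ ⟨s, hs, hsu⟩
  let f : G.induce (B \ {u}) →g avoid G u :=
    { toFun := fun a => a.1
      map_rel' := by
        intro a b hab
        exact ⟨hab, a.2.2, b.2.2⟩ }
  exact h1.map f

lemma noCut_pair {G : SimpleGraph (Fin n)} {u y : Fin n} (h : G.Adj u y) :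
    NoCut G {u, y} := by
  constructor
  · rw [SimpleGraph.connected_iff]
    refine ⟨?_, ⟨⟨u, by simp⟩⟩⟩
    rintro ⟨a, ha⟩ ⟨b, hb⟩
    have hadj : (G.induce ({u, y} : Set (Fin n))).Adj ⟨u, by simp⟩ ⟨y, by simp⟩ := h
    rcases ha with rfl | ha
    · rcases hb with rfl | hb
      · exact SimpleGraph.Reachable.refl _
      · rw [Set.mem_singleton_iff] at hb
        subst hb
        exact hadj.reachable
    · rw [Set.mem_singleton_iff] at ha
      subst ha
      rcases hb with rfl | hb
      · exact hadj.symm.reachable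
      · rw [Set.mem_singleton_iff] at hb
        subst hb
        exact SimpleGraph.Reachable.refl _
  · intro v hv
    rintro ⟨a, ha, hav⟩ ⟨b, hb, hbv⟩
    have : a = b := by
      rcases hv with rfl | hv
      · rcases ha with ha | ha
        · exact absurd ha hav
        · rcases hb with hb | hb
          · exact absurd hb hbv
          · rw [ha, hb]
      · rw [Set.mem_singleton_iff] at hv
        subst hv
        rcases ha with ha | ha
        · rcases hb with hb | hb
          · rw [ha, hb]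
          · exact absurd hb hbv
        · exact absurd ha hav
    subst this
    exact SimpleGraph.Reachable.refl _

lemma exists_block {G : SimpleGraph (Fin n)} {T : Set (Fin n)} (hT : NoCut G T) :
    ∃ B, IsBlock G B ∧ T ⊆ B := by
  obtain ⟨B, hB1, hB2⟩ := (Set.toFinite {B : Set (Fin n) | NoCut G B}).exists_le_maximal hT
  refine ⟨B, ⟨hB2.1, ?_⟩, hB1⟩
  intro T' hBT hT'
  exact Set.Subset.antisymm (hB2.2 hT' hBT) hBT

lemma good_block {G : SimpleGraph (Fin n)} {S : Finset (Fin n)} (hS : Good G S) {u y : Fin n}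
    (hu : u ∈ S) (hy : y ∉ S) (huy : G.Adj u y)
    (hno : ∀ s ∈ S, s ≠ u → ¬ (avoid G u).Reachable y s) : Good G (insert y S) := by
  have hyu : y ≠ u := huy.ne.symm
  have hed : ed u y ∈ ES G (insert y S) := by
    rw [mem_ES]
    refine ⟨ed_mem huy, ?_⟩
    rcases ed_cases u y with ⟨h2, h3⟩ | ⟨h2, h3⟩
    · rw [h2, h3]
      exact ⟨mem_insert_of_mem hu, mem_insert_self _ _⟩
    · rw [h2, h3]
      exact ⟨mem_insert_self _ _, mem_insert_of_mem hu⟩
  have hsub : insert (ed u y) (ES G S) ⊆ ES G (insert y S) :=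
    insert_subset hed (ES_mono G (subset_insert _ _))
  refine ⟨⟨u, mem_insert_of_mem hu⟩, ?_, ?_⟩
  · have hall : ∀ s ∈ insert y S, comp (ES G (insert y S)) s u := by
      intro s hs
      rw [mem_insert] at hs
      rcases hs with rfl | hs
      · exact (comp _).symm (comp_ed hed)
      · exact comp_mono (ES_mono G (subset_insert _ _)) (hS.conn s hs u hu)
    intro s hs t ht
    exact (comp _).trans (hall s hs) ((comp _).symm (hall t ht))
  · intro P hP
    have hP2 : Trans S (insert (ed u y) P) := trans_merge hy hP hu ((comp P).refl u)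
    obtain ⟨b, hb, hN⟩ := hS.nv _ hP2
    have hnotmem : ed u y ∉ ES G S := by
      rw [mem_ES]
      rintro ⟨-, h1, h2⟩
      rcases ed_cases u y with ⟨h3, h4⟩ | ⟨h3, h4⟩
      · rw [h4] at h2
        exact hy h2
      · rw [h3] at h1
        exact hy h1
    have hbr : ¬ comp (P ∪ ES G S) u y := by
      intro h
      have hR : Equivalence (fun a b : Fin n => comp P a b ∨
          ((∃ s ∈ S, comp P a s) ∧ ∃ s ∈ S, comp P b s)) := by
        refine ⟨fun a => Or.inl ((comp P).refl a), ?_, ?_⟩
        · rintro a b (h | ⟨h1, h2⟩)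
          · exact Or.inl ((comp P).symm h)
          · exact Or.inr ⟨h2, h1⟩
        · rintro a b c (h1 | ⟨h1, h2⟩) (h3 | ⟨h3, h4⟩)
          · exact Or.inl ((comp P).trans h1 h3)
          · obtain ⟨s, hs, hbs⟩ := h3
            exact Or.inr ⟨⟨s, hs, (comp P).trans h1 hbs⟩, h4⟩
          · obtain ⟨s, hs, hbs⟩ := h2
            exact Or.inr ⟨h1, ⟨s, hs, (comp P).trans ((comp P).symm h3) hbs⟩⟩
          · exact Or.inr ⟨h1, h4⟩
      have h2 := comp_le hR (by
        intro e he
        rw [mem_union] at he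
        rcases he with he | he
        · exact Or.inl (Relation.EqvGen.rel _ _ ⟨e, he, rfl, rfl⟩)
        · rw [mem_ES] at he
          exact Or.inr ⟨⟨_, he.2.1, (comp P).refl _⟩, ⟨_, he.2.2, (comp P).refl _⟩⟩) h
      rcases h2 with h2 | ⟨-, s, hs, hys⟩
      · exact hyu (hP.2 u (mem_insert_of_mem hu) y (mem_insert_self _ _) h2).symm
      · have := hP.2 y (mem_insert_self _ _) s (mem_insert_of_mem hs) hys
        exact hy (this ▸ hs)
    refine ⟨b + 1, ?_, NV_mono hsub (ES_nonloop hP) (NV_bridge al hnotmem (al_ed hbr) hN)⟩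
    -- a new block
    obtain ⟨B, hB, huB⟩ := exists_block (noCut_pair huy)
    have huB' : u ∈ B := huB (by simp)
    have hyB' : y ∈ B := huB (by simp)
    have hnew : B ∈ bl G (insert y S) :=
      ⟨hB, u, mem_insert_of_mem hu, y, mem_insert_self _ _, hyu.symm, huB', hyB'⟩
    have hold : B ∉ bl G S := by
      rintro ⟨-, a, ha, c, hc, hac, haB, hcB⟩
      have key : ∀ s ∈ S, s ∈ B → s = u := by
        intro s hs hsB
        by_contra hsu
        exact hno s hs hsu (induce_reach (hB.1.2 u huB') hyB' hyu hsB hsu)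
      exact hac ((key a ha haB).trans (key c hc hcB).symm)
    have hlt : (bl G S).ncard < (bl G (insert y S)).ncard :=
      Set.ncard_lt_ncard ⟨bl_mono G (subset_insert _ _), fun h => hold (h hnew)⟩ (Set.toFinite _)
    omega

lemma good_step {G : SimpleGraph (Fin n)} (hG : G.Connected) {S : Finset (Fin n)} (hS : Good G S)
    (hne : S ≠ Finset.univ) : ∃ T, Good G T ∧ S.card < T.card := by
  obtain ⟨s0, hs0⟩ := hS.ne
  obtain ⟨z, hz⟩ : ∃ z, z ∉ S := by
    by_contra h
    push Not at h
    exact hne (Finset.eq_univ_iff_forall.2 h)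
  obtain ⟨p⟩ := hG.preconnected s0 z
  obtain ⟨d, -, hd1, hd2⟩ := p.exists_boundary_dart (S : Set (Fin n)) (by exact_mod_cast hs0)
    (by exact_mod_cast hz)
  set u := d.fst with hu
  set y := d.snd with hy
  have huS : u ∈ S := by exact_mod_cast hd1
  have hyS : y ∉ S := by exact_mod_cast hd2
  have hadj : G.Adj u y := d.adj
  by_cases h : ∃ s ∈ S, s ≠ u ∧ (avoid G u).Reachable y s
  · obtain ⟨s, hs, hsu, hr⟩ := h
    obtain ⟨q, hq⟩ := hr.exists_isPath
    obtain ⟨v, hv, hvu, A, E, hE, -, hyA⟩ := exists_ear q hq hyS hs hadj.ne.symm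
    have hE' : EarTo G S v u (insert y A) (insert (ed u y) E) :=
      EarTo.cons u y A E hadj hyS hyA hE
    refine ⟨_, good_ear hS huS hv hvu hE', ?_⟩
    refine Finset.card_lt_card ⟨subset_union_left, fun h => ?_⟩
    exact hyS (h (mem_union_right _ (mem_insert_self _ _)))
  · push Not at h
    refine ⟨_, good_block hS huS hyS hadj h, ?_⟩
    rw [card_insert_of_notMem hyS]
    omega

lemma good_univ {G : SimpleGraph (Fin n)} (hG : G.Connected) : Good G Finset.univ := by
  have key : ∀ k : ℕ, ∀ S, Good G S → n - S.card ≤ k → Good G Finset.univ := by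
    intro k
    induction k with
    | zero =>
      intro S hS h
      have h1 : S.card ≤ n := by
        have := S.card_le_univ
        rwa [Fintype.card_fin] at this
      have : S = Finset.univ := by
        rw [← Finset.card_eq_iff_eq_univ, Fintype.card_fin]
        omega
      rwa [this] at hS
    | succ k ih =>
      intro S hS h
      by_cases hne : S = Finset.univ
      · rwa [hne] at hS
      · obtain ⟨T, hT, hlt⟩ := good_step hG hS hne
        exact ih T hT (by omega)
  obtain ⟨r⟩ := hG.nonempty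
  exact key n {r} (good_single G r) (by omega)

theorem lower {G : SimpleGraph (Fin n)} (hG : G.Connected) :
    ∃ k, n ≤ k + 1 + numBlocks G ∧ HNonzero G k := by
  have hn : 1 ≤ n := by
    obtain ⟨r⟩ := hG.nonempty
    have := r.2
    omega
  have hgood := good_univ hG
  have hempty : ∀ a b : Fin n, comp (∅ : Finset (Edge n)) a b → a = b := by
    intro a b h
    exact comp_le (R := fun a b => a = b) ⟨fun _ => rfl, Eq.symm, Eq.trans⟩ (by simp) h
  obtain ⟨b, hb, k, hk, hnv⟩ := hgood.nv ∅ ⟨fun v => ⟨v, Finset.mem_univ v, (comp _).refl v⟩,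
    fun s _ t _ h => hempty s t h⟩
  have hES : ES G Finset.univ = edges G := by
    ext e
    rw [mem_ES]
    simp
  rw [hES] at hnv
  have hrk : rk (al (n := n)) ∅ = 0 := by
    unfold rk NN
    simp
  rw [hrk] at hk
  have hfin := finrank_X0 hn
  have hb2 : b ≤ numBlocks G := by
    refine hb.trans (Set.ncard_le_ncard ?_ (Set.toFinite _))
    intro B hB
    exact hB.1
  refine ⟨k, by omega, ?_⟩
  by_contra hcon
  rw [← vanish_iff] at hcon
  exact hnv (transfer_vanish _ k (vanish_rat G k hcon))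

end Pool.Agent.X175.CSH
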