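import Mathlib
import Pool.Agent.X175.CSH.Grow

open Finset

namespace Pool.Agent.X175.CSH

variable {n : ℕ}

lemma bdd (G : SimpleGraph (Fin n)) (hn : 2 ≤ n) {m : ℕ} (h : ∃ k, m = k + 1 ∧ HNonzero G k) :
    m ≤ n - 1 := by
  obtain ⟨k, rfl, hk⟩ := h
  by_contra hcon
  rcases Nat.eq_zero_or_pos k with h0 | h0
  · omega
  · exact vanish_top G h0 (by omega) hk

theorem span0_le (G : SimpleGraph (Fin n)) (hn : 2 ≤ n) : span0 G ≤ n - 1 := by
  refine csSup_le ⟨1, 0, rfl, h0 G⟩ ?_
  intro m hm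
  exact bdd G hn hm

theorem le_span0 (G : SimpleGraph (Fin n)) (hn : 2 ≤ n) {k : ℕ} (h : HNonzero G k) :
    k + 1 ≤ span0 G :=
  le_csSup ⟨n - 1, fun _ hm => bdd G hn hm⟩ ⟨k, rfl, h⟩

theorem lower_span0 (G : SimpleGraph (Fin n)) (hn : 2 ≤ n) (hG : G.Connected) :
    n - numBlocks G ≤ span0 G := by
  obtain ⟨k, hk, hH⟩ := lower hG
  have := le_span0 G hn hH
  omega

/-! ### the graph `2 K_2` -/

/-- two disjoint edges -/
def G0 : SimpleGraph (Fin 4) := SimpleGraph.fromEdgeSet {s(0, 1), s(2, 3)}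

lemma G0_adj (a b : Fin 4) : G0.Adj a b ↔
    ((a = 0 ∧ b = 1) ∨ (a = 1 ∧ b = 0) ∨ (a = 2 ∧ b = 3) ∨ (a = 3 ∧ b = 2)) := by
  unfold G0
  rw [SimpleGraph.fromEdgeSet_adj]
  simp only [Set.mem_insert_iff, Set.mem_singleton_iff, Sym2.eq_iff]
  revert a b
  decide

lemma G0_edges : edges G0 = insert (ed 0 1) {ed 2 3} := by
  have h : ∀ e : Edge 4, ((ofLex e).1 < (ofLex e).2 ∧
      (((ofLex e).1 = 0 ∧ (ofLex e).2 = 1) ∨ ((ofLex e).1 = 1 ∧ (ofLex e).2 = 0) ∨
        ((ofLex e).1 = 2 ∧ (ofLex e).2 = 3) ∨ ((ofLex e).1 = 3 ∧ (ofLex e).2 = 2))) ↔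
      e ∈ (insert (ed 0 1) {ed 2 3} : Finset (Edge 4)) := by
    decide
  ext e
  rw [mem_edges, G0_adj]
  exact h e

lemma vanish_single {ι : Type*} [LinearOrder ι] {W : Type*} [AddCommGroup W]
    (U : Finset ι → AddSubgroup W) (f : ι) (P : Finset ι) {k : ℕ} (hk : 1 ≤ k) :
    Vanish U {f} P k := by
  rw [← insert_empty_eq]
  intro c hc hd
  obtain ⟨hA, -⟩ := cycle_parts (notMem_empty f) hc hd
  have h0 : part0 f c = 0 := by
    funext F
    by_contra hne
    obtain ⟨h1, h2⟩ := (part0_chain hc).2 F hne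
    rw [subset_empty.1 h1] at h2
    simp at h2
    omega
  rw [h0, dd_zero, zero_add] at hA
  have hc0 : c = 0 := by
    rw [← glue_parts f c, h0, hA]
    funext F
    simp [glue]
  exact ⟨0, zero_chain, by rw [dd_zero, hc0]⟩

lemma vanish_pair {ι : Type*} [LinearOrder ι] {W : Type*} [AddCommGroup W]
    (U : Finset ι → AddSubgroup W) (hU : Antitone U) {e f : ι} (hef : e ≠ f)
    (hI : ∀ x, x ∈ U {e} → x ∈ U {f} → x ∈ U {e, f}) {k : ℕ} (hk : 1 ≤ k) :
    Vanish U (insert e {f}) ∅ k := by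
  have he : e ∉ ({f} : Finset ι) := by simpa using hef
  obtain ⟨k', rfl⟩ : ∃ k', k = k' + 1 := ⟨k - 1, by omega⟩
  rcases Nat.eq_zero_or_pos k' with h | h
  · subst h
    intro c hc hd
    obtain ⟨hA, -⟩ := cycle_parts he hc hd
    have hc0 := part0_chain hc
    have hc1 := part1_chain hc
    set x : W := part1 e c ∅ with hx
    have hx1 : x ∈ U {e} := by
      have := hc1.1 ∅
      rwa [union_empty, insert_empty_eq] at this
    have hx2 : x ∈ U {f} := by
      have h1 := congrFun hA ∅
      simp only [Pi.add_apply, Pi.zero_apply] at h1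
      have h2 : dd {f} (part0 e c) ∅ = part0 e c {f} := by
        unfold dd sgn
        simp
      rw [h2] at h1
      have h3 : x = - part0 e c {f} := eq_neg_of_add_eq_zero_right h1
      rw [h3]
      refine (U {f}).neg_mem ?_
      have := hc0.1 {f}
      rwa [empty_union] at this
    obtain ⟨y1, hy1def⟩ : ∃ y1 : Finset ι → W, ∀ F, y1 F = if F = {f} then x else 0 :=
      ⟨fun F => if F = {f} then x else 0, fun _ => rfl⟩
    have hy1 : IsChain U {f} (insert e ∅) 1 y1 := by
      constructor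
      · intro F
        rw [hy1def]
        split_ifs with h
        · rw [h, insert_empty_eq]
          exact hI x hx1 hx2
        · exact (U _).zero_mem
      · intro F hF
        rw [hy1def] at hF
        split_ifs at hF with h
        · exact ⟨by rw [h], by rw [h]; simp⟩
        · exact absurd rfl hF
    have hdy1 : dd {f} y1 = part1 e c := by
      funext F
      by_cases hF : F = ∅
      · subst hF
        unfold dd sgn
        simp [hx, hy1def]
      · have h1 : part1 e c F = 0 := by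
          by_contra hne
          have := (hc1.2 F hne).2
          exact hF (card_eq_zero.1 this)
        rw [h1]
        unfold dd
        refine sum_eq_zero fun g hg => ?_
        rw [mem_sdiff, mem_singleton] at hg
        rw [hy1def, if_neg, smul_zero]
        intro h2
        apply hF
        have h3 : F ⊆ {f} := by
          rw [← h2]
          exact subset_insert _ _
        rcases subset_singleton_iff.1 h3 with h4 | h4
        · exact h4
        · exfalso
          apply hg.2
          rw [h4, hg.1]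
          exact mem_singleton_self f
    obtain ⟨y0, hy0, hdy0⟩ := vanish_single U f ∅ (le_refl 1) (part0 e c + y1)
      (hc0.add (hy1.mono hU (subset_insert _ _))) (by rw [dd_add, hdy1, hA])
    refine ⟨glue e y0 (-y1), glue_chain hy0 hy1.neg, ?_⟩
    rw [dd_glue he]
    have h2 : (fun F => dd {f} y0 F + (-y1) F) = part0 e c := by
      rw [hdy0]
      funext F
      simp
    have h3 : (fun F => - dd {f} (-y1) F) = part1 e c := by
      rw [dd_neg, hdy1]
      funext F
      simp
    rw [h2, h3, glue_parts]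
  · exact step hU he (vanish_single U f _ h) (vanish_single U f _ hk)

lemma young_pair (x : Equiv.Perm (Fin 4) → ℤ) (h1 : x ∈ UW ℤ {ed (0 : Fin 4) 1})
    (h2 : x ∈ UW ℤ {ed (2 : Fin 4) 3}) : x ∈ UW ℤ {ed (0 : Fin 4) 1, ed (2 : Fin 4) 3} := by
  have hsw : ∀ {P : Finset (Edge 4)} {a b : Fin 4}, ed a b ∈ P → Equiv.swap a b ∈ young P := by
    intro P a b hab v
    by_cases h1 : v = a
    · rw [h1, Equiv.swap_apply_left]
      exact (comp _).symm (comp_ed hab)
    · by_cases h2 : v = b
      · rw [h2, Equiv.swap_apply_right]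
        exact comp_ed hab
      · rw [Equiv.swap_apply_of_ne_of_ne h1 h2]
  have hside : ∀ {a b : Fin 4}, comp {ed (0 : Fin 4) 1, ed (2 : Fin 4) 3} a b →
      (a.val < 2 ↔ b.val < 2) := by
    intro a b h
    refine comp_le (R := fun a b : Fin 4 => (a.val < 2 ↔ b.val < 2))
      ⟨fun _ => Iff.rfl, Iff.symm, Iff.trans⟩ ?_ h
    decide
  intro g s hs
  have hs' : ∀ v : Fin 4, ((s v).val < 2 ↔ v.val < 2) := fun v => hside (hs v)
  have key : ∀ s : Equiv.Perm (Fin 4), (∀ v : Fin 4, ((s v).val < 2 ↔ v.val < 2)) →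
      (s = 1 ∨ s = Equiv.swap 0 1 ∨ s = Equiv.swap 2 3 ∨ s = Equiv.swap 0 1 * Equiv.swap 2 3) := by
    decide
  have e1 := h1
  have e2 := h2
  rcases key s hs' with rfl | rfl | rfl | rfl
  · rw [mul_one]
  · exact h1 g _ (hsw (mem_singleton_self _))
  · exact h2 g _ (hsw (mem_singleton_self _))
  · rw [← mul_assoc, h2 _ _ (hsw (mem_singleton_self _)), h1 _ _ (hsw (mem_singleton_self _))]

theorem G0_span : span0 G0 = 1 := by
  have h : ∀ k, 1 ≤ k → ¬ HNonzero G0 k := by
    intro k hk
    rw [← vanish_iff, G0_edges]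
    exact vanish_pair _ (UW_anti ℤ) (by decide) young_pair hk
  refine le_antisymm (csSup_le ⟨1, 0, rfl, h0 G0⟩ ?_) (le_span0 G0 (by norm_num) (h0 G0))
  rintro m ⟨k, rfl, hk⟩
  by_contra hcon
  exact h k (by omega) hk

lemma G0_side {T : Set (Fin 4)} (hT : (G0.induce T).Preconnected) {a b : Fin 4} (ha : a ∈ T)
    (hb : b ∈ T) : (a.val < 2 ↔ b.val < 2) := by
  obtain ⟨p⟩ := hT ⟨a, ha⟩ ⟨b, hb⟩
  have key : ∀ {x y : T} (_ : (G0.induce T).Walk x y), ((x : Fin 4).val < 2 ↔ (y : Fin 4).val < 2) := by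
    intro x y p
    induction p with
    | nil => exact Iff.rfl
    | @cons x z y h q ih =>
      have h1 : G0.Adj (x : Fin 4) (z : Fin 4) := h
      rw [G0_adj] at h1
      have h2 : ((x : Fin 4).val < 2 ↔ (z : Fin 4).val < 2) := by
        rcases h1 with ⟨h1, h2⟩ | ⟨h1, h2⟩ | ⟨h1, h2⟩ | ⟨h1, h2⟩ <;> rw [h1, h2] <;> decide
      exact h2.trans ih
  exact key p

theorem G0_blocks : numBlocks G0 = 2 := by
  have h01 : NoCut G0 {0, 1} := noCut_pair (by rw [G0_adj]; decide)
  have h23 : NoCut G0 {2, 3} := noCut_pair (by rw [G0_adj]; decide)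
  have hsub : ∀ T, NoCut G0 T → T ⊆ {0, 1} ∨ T ⊆ {2, 3} := by
    intro T hT
    obtain ⟨⟨r, hr⟩⟩ := hT.1.nonempty
    by_cases h : r.val < 2
    · left
      intro x hx
      have h1 := (G0_side hT.1.preconnected hr hx).1 h
      have : ∀ x : Fin 4, x.val < 2 → x = 0 ∨ x = 1 := by decide
      exact this x h1
    · right
      intro x hx
      have h1 : ¬ x.val < 2 := fun h2 => h ((G0_side hT.1.preconnected hr hx).2 h2)
      have : ∀ x : Fin 4, ¬ x.val < 2 → x = 2 ∨ x = 3 := by decide
      exact this x h1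
  have hset : {S : Set (Fin 4) | IsBlock G0 S} = {{0, 1}, {2, 3}} := by
    ext S
    constructor
    · rintro ⟨h1, h2⟩
      rcases hsub S h1 with h | h
      · exact Or.inl (h2 _ h h01).symm
      · exact Or.inr (h2 _ h h23).symm
    · rintro (rfl | h)
      · refine ⟨h01, fun T hT hTn => ?_⟩
        rcases hsub T hTn with h | h
        · exact Set.Subset.antisymm h hT
        · have := h (hT (show (0 : Fin 4) ∈ ({0, 1} : Set (Fin 4)) by simp))
          simp at this
      · rw [Set.mem_singleton_iff] at h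
        subst h
        refine ⟨h23, fun T hT hTn => ?_⟩
        rcases hsub T hTn with h | h
        · have := h (hT (show (2 : Fin 4) ∈ ({2, 3} : Set (Fin 4)) by simp))
          simp at this
        · exact Set.Subset.antisymm h hT
  unfold numBlocks
  rw [hset, Set.ncard_pair]
  intro h
  have : (0 : Fin 4) ∈ ({2, 3} : Set (Fin 4)) := by
    rw [← h]
    simp
  simp at this

end Pool.Agent.X175.CSH
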